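import Pool.Agent.Lib.MP_7ed9c3_nt.Zg.Spec

set_option autoImplicit false

namespace MP7ed9c3.Zg

open NumberField IsDedekindDomain Filter Topology MP7ed9c3.Tw MP7ed9c3.Ext

private theorem AdmC_cont {Y : Type} [Fintype Y] (π : Equiv.Perm Y) (j : ℕ) :
    Continuous fun ψ : Y → ℝ => csum π ψ j := by
  classical
  unfold csum
  refine continuous_finsetSum _ fun y _ => ?_
  by_cases h : (π ^ j) y = y
  · simp only [h, if_true]
    fun_prop
  · simp only [h, if_false]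
    exact continuous_const

private theorem AdmC_period {Y : Type} [Fintype Y] (π : Equiv.Perm Y) (j : ℕ) (ψ : Y → ℝ) :
    csum π (fun y => 2 * Real.pi * Int.fract (ψ y / (2 * Real.pi))) j = csum π ψ j := by
  classical
  unfold csum
  refine Finset.sum_congr rfl fun y _ => ?_
  by_cases h : (π ^ j) y = y
  · rw [if_pos h, if_pos h]
    have hp : (2 * Real.pi) ≠ 0 := by positivity
    have e : 2 * Real.pi * Int.fract (ψ y / (2 * Real.pi)) =
        ψ y - (⌊ψ y / (2 * Real.pi)⌋ : ℝ) * (2 * Real.pi) := by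
      rw [Int.fract, mul_sub, mul_div_cancel₀ _ hp]
      ring
    show Real.cos (↑j * (2 * Real.pi * Int.fract (ψ y / (2 * Real.pi)))) = Real.cos (↑j * ψ y)
    rw [e]
    have e2 : (j : ℝ) * (ψ y - (⌊ψ y / (2 * Real.pi)⌋ : ℝ) * (2 * Real.pi)) =
        (j : ℝ) * ψ y - (((j : ℤ) * ⌊ψ y / (2 * Real.pi)⌋ : ℤ) : ℝ) * (2 * Real.pi) := by
      push_cast
      ring
    rw [e2, Real.cos_sub_int_mul_two_pi]
  · rw [if_neg h, if_neg h]

theorem admC : S_AdmC := by
  classical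
  intro Y _ π k hadm
  obtain ⟨j0, hj0, hj0k, -⟩ := hadm (fun _ => 0) (fun _ => rfl)
  have hk : 1 ≤ k := hj0.trans hj0k
  have hkpos : (0 : ℝ) < k := by exact_mod_cast hk
  set Q : Set (Y → ℝ) := Set.pi Set.univ (fun _ => Set.Icc (0 : ℝ) (2 * Real.pi)) ∩
    {ψ | ∀ y, ψ (π y) = ψ y} with hQ
  have hclosed : IsClosed {ψ : Y → ℝ | ∀ y, ψ (π y) = ψ y} := by
    have : {ψ : Y → ℝ | ∀ y, ψ (π y) = ψ y} = ⋂ y, {ψ : Y → ℝ | ψ (π y) = ψ y} := by
      ext ψ; simp
    rw [this]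
    exact isClosed_iInter fun y => isClosed_eq (continuous_apply _) (continuous_apply _)
  have hcomp : IsCompact Q :=
    (isCompact_univ_pi fun _ => isCompact_Icc).inter_right hclosed
  have hne : Q.Nonempty := by
    refine ⟨fun _ => 0, ?_, fun _ => rfl⟩
    intro y _
    exact ⟨le_rfl, by positivity⟩
  have hcont : Continuous fun ψ : Y → ℝ => ∑ j ∈ Finset.Icc 1 k, |csum π ψ j| :=
    continuous_finsetSum _ fun j _ => (AdmC_cont π j).abs
  obtain ⟨ψ0, hψ0, hmin⟩ := hcomp.exists_isMinOn hne hcont.continuousOn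
  have hpos : ∀ ψ : Y → ℝ, (∀ y, ψ (π y) = ψ y) → 0 < ∑ j ∈ Finset.Icc 1 k, |csum π ψ j| := by
    intro ψ hψ
    obtain ⟨j, hj1, hj2, hj3⟩ := hadm ψ hψ
    refine Finset.sum_pos' (fun _ _ => abs_nonneg _) ⟨j, Finset.mem_Icc.2 ⟨hj1, hj2⟩, ?_⟩
    exact abs_pos.2 hj3
  have hm := hpos ψ0 hψ0.2
  refine ⟨(∑ j ∈ Finset.Icc 1 k, |csum π ψ0 j|) / k, div_pos hm hkpos, ?_⟩
  intro ψ hψ
  have hmem : (fun y => 2 * Real.pi * Int.fract (ψ y / (2 * Real.pi))) ∈ Q := by
    refine ⟨?_, ?_⟩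
    · intro y _
      have h1 := Int.fract_nonneg (ψ y / (2 * Real.pi))
      have h2 := (Int.fract_lt_one (ψ y / (2 * Real.pi))).le
      constructor
      · positivity
      · have h3 : (0 : ℝ) ≤ 2 * Real.pi := by positivity
        calc 2 * Real.pi * Int.fract (ψ y / (2 * Real.pi)) ≤ 2 * Real.pi * 1 :=
              mul_le_mul_of_nonneg_left h2 h3
          _ = 2 * Real.pi := mul_one _
    · intro y
      show 2 * Real.pi * Int.fract (ψ (π y) / (2 * Real.pi)) = _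
      rw [hψ y]
  have h1 : ∑ j ∈ Finset.Icc 1 k, |csum π ψ0 j| ≤ ∑ j ∈ Finset.Icc 1 k, |csum π ψ j| := by
    have h2 := hmin hmem
    simp only [Set.mem_ofPred_eq] at h2
    refine h2.trans (le_of_eq ?_)
    exact Finset.sum_congr rfl fun j _ => by rw [AdmC_period]
  by_contra hcon
  push Not at hcon
  have h3 : ∑ j ∈ Finset.Icc 1 k, |csum π ψ j| <
      ∑ _j ∈ Finset.Icc 1 k, (∑ j ∈ Finset.Icc 1 k, |csum π ψ0 j|) / (k : ℝ) := by
    refine Finset.sum_lt_sum_of_nonempty (Finset.nonempty_Icc.2 hk) fun j hj => ?_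
    have := Finset.mem_Icc.1 hj
    exact hcon j this.1 this.2
  rw [Finset.sum_const, Nat.card_Icc, nsmul_eq_mul, Nat.add_sub_cancel,
    mul_div_cancel₀ _ hkpos.ne'] at h3
  exact absurd h1 (not_le.2 h3)

end MP7ed9c3.Zg
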