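import Pool.Agent.Lib.MP_7ed9c3_nt.Zg.Spec

set_option autoImplicit false

namespace MP7ed9c3.Zg

open NumberField IsDedekindDomain Filter Topology MP7ed9c3.Tw MP7ed9c3.Ext

private theorem AdmConj_is {Y : Type} (σ : Equiv.Perm Y) (y : Y) : σ⁻¹ (σ y) = y := by
  rw [Equiv.Perm.inv_eq_iff_eq]

private theorem AdmConj_si {Y : Type} (σ : Equiv.Perm Y) (y : Y) : σ (σ⁻¹ y) = y :=
  Equiv.Perm.eq_inv_iff_eq.1 rfl

private theorem AdmConj_inv {Y : Type} {σ : Equiv.Perm Y} {f : Y → ℝ} (h : ∀ y, f (σ y) = f y)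
    (n : ℤ) (y : Y) : f ((σ ^ n) y) = f y := by
  have hinv : ∀ y, f (σ⁻¹ y) = f y := by
    intro y
    have h1 := h (σ⁻¹ y)
    rw [AdmConj_si] at h1
    exact h1.symm
  induction n using Int.induction_on generalizing y with
  | zero => simp
  | succ n ih =>
    rw [zpow_add_one, Equiv.Perm.mul_apply, ih, h]
  | pred n ih =>
    rw [zpow_sub_one, Equiv.Perm.mul_apply, ih, hinv]

private theorem AdmConj_fix {Y : Type} {σ ρ : Equiv.Perm Y} {a : ℤ} (h : ρ = σ ^ a) (j : ℕ) (y : Y)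
    (hy : (σ ^ j) y = y) : (ρ ^ j) y = y := by
  have e : ρ ^ j = (σ ^ j) ^ a := by
    rw [h, ← zpow_natCast, ← zpow_mul, ← zpow_natCast, ← zpow_mul, mul_comm]
  rw [e]
  exact Function.IsFixedPt.perm_zpow hy a

theorem admConj : S_AdmConj := by
  classical
  intro Y _ π ρ τ k hz hadm ψ hψ
  have h1 : ρ ∈ Subgroup.zpowers (τ * π * τ⁻¹) := by
    rw [hz]; exact Subgroup.mem_zpowers ρ
  have h2 : τ * π * τ⁻¹ ∈ Subgroup.zpowers ρ := by
    rw [← hz]; exact Subgroup.mem_zpowers _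
  obtain ⟨a, ha⟩ := Subgroup.mem_zpowers_iff.1 h1
  obtain ⟨b, hb⟩ := Subgroup.mem_zpowers_iff.1 h2
  have hinv' : ∀ y, (fun y => ψ (τ⁻¹ y)) ((τ * π * τ⁻¹) y) = (fun y => ψ (τ⁻¹ y)) y := by
    intro y
    show ψ (τ⁻¹ ((τ * π * τ⁻¹) y)) = ψ (τ⁻¹ y)
    rw [Equiv.Perm.mul_apply, Equiv.Perm.mul_apply, AdmConj_is, hψ]
  obtain ⟨j, hj1, hj2, hj3⟩ := hadm (fun y => ψ (τ⁻¹ y)) (by
    intro y
    rw [← ha]
    exact AdmConj_inv (f := fun y => ψ (τ⁻¹ y)) hinv' a y)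
  refine ⟨j, hj1, hj2, ?_⟩
  have key : csum ρ (fun y => ψ (τ⁻¹ y)) j = csum π ψ j := by
    unfold csum
    rw [← Equiv.sum_comp τ]
    refine Finset.sum_congr rfl fun y _ => ?_
    have hc : (ρ ^ j) (τ y) = τ y ↔ (π ^ j) y = y := by
      have e3 : ((τ * π * τ⁻¹) ^ j) (τ y) = τ ((π ^ j) y) := by
        rw [conj_pow, Equiv.Perm.mul_apply, Equiv.Perm.mul_apply, AdmConj_is]
      constructor
      · intro h
        have h4 := AdmConj_fix hb.symm j (τ y) h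
        rw [e3] at h4
        exact τ.injective h4
      · intro h
        have h4 : ((τ * π * τ⁻¹) ^ j) (τ y) = τ y := by rw [e3, h]
        exact AdmConj_fix ha.symm j (τ y) h4
    by_cases h : (π ^ j) y = y
    · rw [if_pos h, if_pos (hc.2 h)]
      show Real.cos (↑j * ψ (τ⁻¹ (τ y))) = Real.cos (↑j * ψ y)
      rw [AdmConj_is]
    · rw [if_neg h, if_neg (fun h' => h (hc.1 h'))]
  rw [← key]
  exact hj3

end MP7ed9c3.Zg
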