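import Pool.Agent.Lib.MP_7ed9c3_nt.Zg.Spec

set_option autoImplicit false

namespace MP7ed9c3.Zg

open NumberField IsDedekindDomain Filter Topology MP7ed9c3.Tw MP7ed9c3.Ext

theorem admTwo : S_AdmTwo := by
  classical
  intro Y _ π h ψ hψ
  obtain ⟨y₀, h0, hu⟩ := h
  have h0' : (π ^ 2) y₀ = y₀ := h0
  have hfix : π y₀ = y₀ := by
    apply hu
    show (π ^ 2) (π y₀) = π y₀
    have : (π ^ 2) (π y₀) = π ((π ^ 2) y₀) := by
      rw [← Equiv.Perm.mul_apply, ← Equiv.Perm.mul_apply, ← pow_succ, ← pow_succ']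
    rw [this, h0']
  have e1 : csum π ψ 1 = Real.cos (ψ y₀) := by
    unfold csum
    rw [Finset.sum_eq_single y₀]
    · rw [if_pos (by rw [pow_one]; exact hfix)]
      norm_num
    · intro b _ hb
      rw [if_neg]
      intro hb1
      rw [pow_one] at hb1
      apply hb
      apply hu
      show (π ^ 2) b = b
      rw [pow_two, Equiv.Perm.mul_apply, hb1, hb1]
    · intro hn
      exact absurd (Finset.mem_univ _) hn
  have e2 : csum π ψ 2 = Real.cos (2 * ψ y₀) := by
    unfold csum
    rw [Finset.sum_eq_single y₀]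
    · rw [if_pos h0']
      norm_num
    · intro b _ hb
      rw [if_neg]
      intro hb1
      exact hb (hu b hb1)
    · intro hn
      exact absurd (Finset.mem_univ _) hn
  by_cases hc : Real.cos (ψ y₀) = 0
  · refine ⟨2, by norm_num, le_rfl, ?_⟩
    rw [e2, Real.cos_two_mul, hc]
    norm_num
  · refine ⟨1, le_rfl, by norm_num, ?_⟩
    rw [e1]
    exact hc

end MP7ed9c3.Zg
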