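import Pool.Agent.Lib.MP_7ed9c3_nt.Zg.Spec

/-!
# MP_7ed9c3_nt, part Zg: the mean value of the indicator function of a class
-/

set_option autoImplicit false

namespace MP7ed9c3.Zg

open NumberField IsDedekindDomain Filter Topology MP7ed9c3.Tw MP7ed9c3.Ext

/-- Burnside's lemma for the transitive action on `G ⧸ H`. -/
private theorem ClassB_burnside {G : Type} [_root_.Group G] [Fintype G] (H : Subgroup G) :
    ∑ g : G, fx (G ⧸ H) g = (Fintype.card G : ℝ) := by
  classical
  have : Fintype (G ⧸ H) := Fintype.ofFinite _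
  have : ∀ a : G, Fintype (MulAction.fixedBy (G ⧸ H) a) := fun a => Fintype.ofFinite _
  have : Fintype (Quotient (MulAction.orbitRel G (G ⧸ H))) := Fintype.ofFinite _
  have h1 := MulAction.sum_card_fixedBy_eq_card_orbits_mul_card_group G (G ⧸ H)
  have h2 : Fintype.card (Quotient (MulAction.orbitRel G (G ⧸ H))) = 1 := by
    rw [Fintype.card_eq_one_iff]
    refine ⟨Quotient.mk _ ((1 : G) : G ⧸ H), fun y => ?_⟩
    induction y using Quotient.inductionOn with
    | _ y =>
      obtain ⟨g, hg⟩ := MulAction.exists_smul_eq G ((1 : G) : G ⧸ H) y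
      refine Quotient.sound ?_
      exact (MulAction.orbitRel_apply).2 ⟨g, hg⟩
  rw [h2, one_mul] at h1
  rw [← h1, Nat.cast_sum]
  refine Finset.sum_congr rfl fun g _ => ?_
  unfold fx
  rw [← Nat.card_eq_fintype_card]
  rfl

/-- Absolute convergence for a function of `σ v`. -/
private theorem ClassB_summable {X G : Type} [_root_.Group G] [Fintype G] (q : X → ℕ) (σ : X → G)
    (hq : NormsB q) (h : G → ℝ) (x : ℝ) (hx : 0 < x) :
    Summable fun v => h (σ v) * (q v : ℝ) ^ (-(1 + x)) := by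
  have h1 := (hq.2.1 (1 + x) (by linarith)).mul_left (∑ g : G, |h g|)
  refine Summable.of_norm_bounded h1 fun v => ?_
  have h2 : |h (σ v)| ≤ ∑ g : G, |h g| :=
    Finset.single_le_sum (f := fun g => |h g|) (fun g _ => abs_nonneg _) (Finset.mem_univ (σ v))
  have h3 : 0 ≤ (q v : ℝ) ^ (-(1 + x)) := Real.rpow_nonneg (Nat.cast_nonneg _) _
  rw [Real.norm_eq_abs, abs_mul, abs_of_nonneg h3]
  exact mul_le_mul_of_nonneg_right h2 h3

/-- The mean over the group. -/
private noncomputable def ClassB_mu {G : Type} [Fintype G] (h : G → ℝ) : ℝ :=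
  (∑ g : G, h g) / (Fintype.card G : ℝ)

/-- The mean value of all linear combinations of permutation characters. -/
private theorem ClassB_span {X G : Type} [_root_.Group G] [Fintype G] (q : X → ℕ) (σ : X → G)
    (hq : NormsB q) (hH : ∀ H : Subgroup G, BMean q (fun v => fx (G ⧸ H) (σ v)) 1) (h : G → ℝ)
    (hh : h ∈ Submodule.span ℝ (Set.range fun (H : Subgroup G) (g : G) => fx (G ⧸ H) g)) :
    BMean q (fun v => h (σ v)) (ClassB_mu h) := by
  have hG : (Fintype.card G : ℝ) ≠ 0 := by
    have : 0 < Fintype.card G := Fintype.card_pos_iff.2 ⟨1⟩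
    exact_mod_cast this.ne'
  induction hh using Submodule.span_induction with
  | mem h hm =>
    obtain ⟨H, rfl⟩ := hm
    have h1 : ClassB_mu (fun g : G => fx (G ⧸ H) g) = 1 := by
      unfold ClassB_mu
      rw [ClassB_burnside H, div_self hG]
    rw [h1]
    exact hH H
  | zero =>
    refine ⟨0, fun x _ _ => ?_⟩
    have h1 : ClassB_mu (0 : G → ℝ) = 0 := by
      unfold ClassB_mu
      simp
    rw [h1]
    unfold Qs
    simp
  | add f g _ _ hf hg =>
    obtain ⟨C, hC⟩ := hf
    obtain ⟨C', hC'⟩ := hg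
    refine ⟨C + C', fun x hx hx1 => ?_⟩
    have h1 : ClassB_mu (f + g) = ClassB_mu f + ClassB_mu g := by
      unfold ClassB_mu
      rw [← add_div, ← Finset.sum_add_distrib]
      rfl
    have h2 : Qs q x (fun v => (f + g) (σ v)) =
        Qs q x (fun v => f (σ v)) + Qs q x (fun v => g (σ v)) := by
      unfold Qs
      rw [← (ClassB_summable q σ hq f x hx).tsum_add (ClassB_summable q σ hq g x hx)]
      refine tsum_congr fun v => ?_
      change (f (σ v) + g (σ v)) * (q v : ℝ) ^ (-(1 + x)) = _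
      rw [add_mul]
    rw [h1, h2]
    have h3 := hC x hx hx1
    have h4 := hC' x hx hx1
    calc |Qs q x (fun v => f (σ v)) + Qs q x (fun v => g (σ v)) -
          (ClassB_mu f + ClassB_mu g) * Real.log (1 / x)|
        = |(Qs q x (fun v => f (σ v)) - ClassB_mu f * Real.log (1 / x)) +
          (Qs q x (fun v => g (σ v)) - ClassB_mu g * Real.log (1 / x))| := by
          congr 1
          ring
      _ ≤ _ := (abs_add_le _ _).trans (add_le_add h3 h4)
  | smul a f _ hf =>
    obtain ⟨C, hC⟩ := hf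
    refine ⟨|a| * C, fun x hx hx1 => ?_⟩
    have h1 : ClassB_mu (a • f) = a * ClassB_mu f := by
      unfold ClassB_mu
      rw [← mul_div_assoc, Finset.mul_sum]
      rfl
    have h2 : Qs q x (fun v => (a • f) (σ v)) = a * Qs q x (fun v => f (σ v)) := by
      unfold Qs
      rw [← tsum_mul_left]
      refine tsum_congr fun v => ?_
      change (a * f (σ v)) * (q v : ℝ) ^ (-(1 + x)) = _
      rw [mul_assoc]
    rw [h1, h2]
    have h3 : a * Qs q x (fun v => f (σ v)) - a * ClassB_mu f * Real.log (1 / x) =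
        a * (Qs q x (fun v => f (σ v)) - ClassB_mu f * Real.log (1 / x)) := by ring
    rw [h3, abs_mul]
    exact mul_le_mul_of_nonneg_left (hC x hx hx1) (abs_nonneg a)

theorem classB (h : S_Ind) : S_ClassB := by
  intro X G _ _ q σ hq hH g₀ f hf1 hf0
  classical
  let ind : G → ℝ := fun g => if ConjZ g₀ g then 1 else 0
  have hi1 : ∀ g, ConjZ g₀ g → ind g = 1 := fun g hg => if_pos hg
  have hi0 : ∀ g, ¬ ConjZ g₀ g → ind g = 0 := fun g hg => if_neg hg
  have h1 := ClassB_span q σ hq hH ind (h G g₀ ind hi1 hi0)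
  have h2 : f = fun v => ind (σ v) := by
    funext v
    by_cases hv : ConjZ g₀ (σ v)
    · rw [hf1 v hv, hi1 _ hv]
    · rw [hf0 v hv, hi0 _ hv]
  refine ⟨ClassB_mu ind, ?_, h2 ▸ h1⟩
  unfold ClassB_mu
  have hG : (0 : ℝ) < (Fintype.card G : ℝ) := by
    have : 0 < Fintype.card G := Fintype.card_pos_iff.2 ⟨1⟩
    exact_mod_cast this
  refine div_pos ?_ hG
  have h0 : ∀ g, 0 ≤ ind g := fun g => by
    by_cases hg : ConjZ g₀ g
    · rw [hi1 g hg]; exact zero_le_one
    · rw [hi0 g hg]
  have h3 : ConjZ g₀ g₀ := ⟨1, by simp⟩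
  have h4 : ind g₀ ≤ ∑ g : G, ind g :=
    Finset.single_le_sum (f := ind) (fun g _ => h0 g) (Finset.mem_univ g₀)
  rw [hi1 g₀ h3] at h4
  linarith

end MP7ed9c3.Zg
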