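import Pool.Agent.Lib.MP_7ed9c3_nt.Zg.Spec

/-!
# Zg: many elements on some scale (helper98)
-/

set_option autoImplicit false

namespace MP7ed9c3.Zg

open NumberField IsDedekindDomain Filter Topology MP7ed9c3.Tw MP7ed9c3.Ext

theorem dyad : S_Dyad := by
  classical
  intro X q f M Y₀ hM hT ε hε
  -- replace `ε` by a smaller one
  obtain ⟨e, he0, he1, hee⟩ : ∃ e : ℝ, 0 < e ∧ e < 1 ∧ e ≤ ε :=
    ⟨min ε (1 / 2), lt_min hε (by norm_num), lt_of_le_of_lt (min_le_right _ _) (by norm_num),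
      min_le_left _ _⟩
  set c : ℝ := (2 : ℝ) ^ (-e) with hc
  have hc0 : 0 < c := Real.rpow_pos_of_pos (by norm_num) _
  have hc1 : c < 1 := Real.rpow_lt_one_of_one_lt_of_neg (by norm_num) (by linarith)
  obtain ⟨k, hk⟩ : ∃ k : ℕ, c ^ k < (1 - c) / 2 :=
    exists_pow_lt_of_lt_one (by linarith) hc1
  refine ⟨M + 1, max Y₀ ((2 : ℝ) ^ (k + 1)), by linarith, fun Y hY => ?_⟩
  have hY0 : Y₀ ≤ Y := (le_max_left _ _).trans hY
  have hYk : (2 : ℝ) ^ (k + 1) ≤ Y := (le_max_right _ _).trans hY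
  have hY2 : (2 : ℝ) ≤ Y := by
    have h1 : (2 : ℝ) ^ 1 ≤ 2 ^ (k + 1) := pow_le_pow_right₀ (by norm_num) (by omega)
    linarith
  obtain ⟨T, hT1, hT2⟩ := hT Y hY0
  by_contra hcon
  have hqpos : ∀ v ∈ T, q v ≠ 0 := by
    intro v hv h0
    have h1 := (hT1 v hv).2.1
    rw [h0, Nat.cast_zero] at h1
    linarith
  have hlow : ∀ v ∈ T, 2 ^ Nat.log 2 (q v) ≤ q v := fun v hv =>
    Nat.pow_log_le_self 2 (hqpos v hv)
  have hup : ∀ v : X, q v < 2 ^ (Nat.log 2 (q v) + 1) := fun v =>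
    Nat.lt_pow_succ_log_self (by norm_num) _
  -- each block is small
  have hblock : ∀ i ∈ T.image (fun v => Nat.log 2 (q v)),
      (((T.filter fun v => Nat.log 2 (q v) = i).card : ℕ) : ℝ) < ((2 : ℝ) ^ (i + 1)) ^ (1 - e) := by
    intro i hi
    by_contra h2
    rw [not_lt] at h2
    obtain ⟨v, hv, hvi⟩ := Finset.mem_image.1 hi
    apply hcon
    refine ⟨2 ^ (i + 1), T.filter fun v => Nat.log 2 (q v) = i, ?_, ?_, ?_, ?_⟩
    · have h3 := (hT1 v hv).2.1
      have h4 : ((q v : ℕ) : ℝ) < ((2 ^ (i + 1) : ℕ) : ℝ) := by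
        have h5 := hup v
        rw [hvi] at h5
        exact_mod_cast h5
      linarith
    · have h3 := (hT1 v hv).2.2
      have h4 : ((2 ^ i : ℕ) : ℝ) ≤ ((q v : ℕ) : ℝ) := by
        have h5 := hlow v hv
        rw [hvi] at h5
        exact_mod_cast h5
      rw [Real.rpow_add (by linarith), Real.rpow_one]
      have h6 : (0 : ℝ) ≤ Y ^ M := Real.rpow_nonneg (by linarith) _
      push_cast at h4 ⊢
      rw [pow_succ]
      nlinarith
    · have h3 : (1 : ℝ) ≤ ((2 ^ (i + 1) : ℕ) : ℝ) := by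
        exact_mod_cast Nat.one_le_two_pow
      have h4 : ((2 ^ (i + 1) : ℕ) : ℝ) ^ (1 - ε) ≤ ((2 ^ (i + 1) : ℕ) : ℝ) ^ (1 - e) :=
        Real.rpow_le_rpow_of_exponent_le h3 (by linarith)
      refine h4.trans ?_
      push_cast
      exact h2
    · intro w hw
      obtain ⟨hw1, hw2⟩ := Finset.mem_filter.1 hw
      refine ⟨(hT1 w hw1).1, ?_⟩
      have h5 := hup w
      rw [hw2] at h5
      exact h5.le
  have hsum : ∑ v ∈ T, 1 / (q v : ℝ) ≤
      ∑ i ∈ T.image (fun v => Nat.log 2 (q v)), 2 * c ^ i := by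
    rw [← Finset.sum_fiberwise_of_maps_to (g := fun v => Nat.log 2 (q v))
      (t := T.image (fun v => Nat.log 2 (q v)))
      (fun v hv => Finset.mem_image_of_mem _ hv)]
    refine Finset.sum_le_sum fun i hi => ?_
    have h1 : ∑ v ∈ T.filter (fun v => Nat.log 2 (q v) = i), 1 / (q v : ℝ) ≤
        ∑ v ∈ T.filter (fun v => Nat.log 2 (q v) = i), 1 / (2 : ℝ) ^ i := by
      refine Finset.sum_le_sum fun v hv => ?_
      obtain ⟨hv1, hv2⟩ := Finset.mem_filter.1 hv
      have h5 := hlow v hv1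
      rw [hv2] at h5
      have h6 : (2 : ℝ) ^ i ≤ (q v : ℝ) := by exact_mod_cast h5
      exact one_div_le_one_div_of_le (by positivity) h6
    rw [Finset.sum_const, nsmul_eq_mul] at h1
    refine h1.trans ?_
    have h2 := (hblock i hi).le
    have h3 : (0 : ℝ) < 1 / (2 : ℝ) ^ i := by positivity
    refine (mul_le_mul_of_nonneg_right h2 h3.le).trans ?_
    have h4 : ((2 : ℝ) ^ (i + 1)) ^ (1 - e) = (2 : ℝ) ^ (i + 1) * c ^ (i + 1) := by
      rw [sub_eq_add_neg, Real.rpow_add (by positivity), Real.rpow_one, hc,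
        ← Real.rpow_natCast (2 : ℝ) (i + 1), ← Real.rpow_natCast ((2 : ℝ) ^ (-e)) (i + 1),
        ← Real.rpow_mul (by norm_num), ← Real.rpow_mul (by norm_num), mul_comm (-e)]
    rw [h4]
    have h5 : (2 : ℝ) ^ (i + 1) * c ^ (i + 1) * (1 / (2 : ℝ) ^ i) = 2 * c ^ (i + 1) := by
      rw [pow_succ (2 : ℝ) i]
      field_simp
    rw [h5]
    have h6 : c ^ (i + 1) ≤ c ^ i := pow_le_pow_of_le_one hc0.le hc1.le (by omega)
    linarith
  have hsub : T.image (fun v => Nat.log 2 (q v)) ⊆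
      Finset.Ico k ((T.image (fun v => Nat.log 2 (q v))).sup id + 1) := by
    intro i hi
    rw [Finset.mem_Ico]
    constructor
    · obtain ⟨v, hv, hvi⟩ := Finset.mem_image.1 hi
      by_contra hlt
      rw [not_le] at hlt
      have h3 := (hT1 v hv).2.1
      have h4 : ((q v : ℕ) : ℝ) < ((2 ^ (i + 1) : ℕ) : ℝ) := by
        have h5 := hup v
        rw [hvi] at h5
        exact_mod_cast h5
      have h6 : ((2 : ℝ)) ^ (i + 1) ≤ 2 ^ (k + 1) := pow_le_pow_right₀ (by norm_num) (by omega)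
      push_cast at h4
      linarith
    · exact Nat.lt_succ_of_le (Finset.le_sup (f := id) hi)
  have hgeo : ∑ i ∈ T.image (fun v => Nat.log 2 (q v)), 2 * c ^ i ≤ 2 * (c ^ k / (1 - c)) := by
    refine (Finset.sum_le_sum_of_subset_of_nonneg hsub fun i _ _ => by positivity).trans ?_
    rw [← Finset.mul_sum]
    exact mul_le_mul_of_nonneg_left (geom_sum_Ico_le_of_lt_one hc0.le hc1) (by norm_num)
  have hfin : 2 * (c ^ k / (1 - c)) < 1 := by
    rw [mul_div_assoc', div_lt_one (by linarith)]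
    linarith
  linarith

end MP7ed9c3.Zg
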