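import Pool.Agent.Lib.MP_7ed9c3_nt.Zg.Spec

/-!
# MP_7ed9c3_nt, Zg: the theorem for an admissible number
-/

set_option autoImplicit false

namespace MP7ed9c3.Zg

open NumberField IsDedekindDomain Filter Topology MP7ed9c3.Tw MP7ed9c3.Ext

theorem fin (h1 : S_Many) (h2 : S_Lower) (h3 : S_Box) (h4 : S_RootsP) (h5 : Zs.S_Roots)
    (h6 : Zs.S_Series) : S_Fin := by
  intro K _ _ E hE M hM N _ _ _ g k hne hadm
  obtain ⟨α, β, X, hX, hloc, hnorm, hroots⟩ := h5 K E hE M hM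
  obtain ⟨hsum, hexp⟩ := h6 K α β M hloc hnorm
  have hok : RootsOK K α β := by
    refine hX.subset fun v hv => ?_
    by_contra hvX
    obtain ⟨ha, hb⟩ := hroots v hvX
    exact hv ⟨ha, h4 K (M v) v (α v) (β v) (hloc v) ha hb⟩
  have hk : 1 ≤ k := by
    obtain ⟨j, hj1, hj2, -⟩ := hadm (fun _ => 0) (fun _ => rfl)
    omega
  have hkR : (1 : ℝ) ≤ k := by exact_mod_cast hk
  obtain ⟨c, hc, hmany⟩ := h1 K N g k hne hadm α β hok
  have hb1 : (1 : ℝ) / 2 < 1 / 2 + 1 / (2 * (k : ℝ)) := by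
    have : 0 < 1 / (2 * (k : ℝ)) := by positivity
    linarith
  have hb2 : (1 : ℝ) / 2 + 1 / (2 * (k : ℝ)) ≤ 1 := by
    have : 1 / (2 * (k : ℝ)) ≤ 1 / 2 := by
      apply one_div_le_one_div_of_le (by norm_num)
      linarith
    linarith
  refine h3 K M α β k _ hsum hexp hb1 hb2 fun x hx1 hx2 => ?_
  exact h2 _ k c x hc hx1 hx2 hmany

end MP7ed9c3.Zg
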