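import Pool.Agent.Lib.MP_7ed9c3_nt.Zg.Spec

/-!
# MP_7ed9c3_nt, part Zg: `S_Ind`

The indicator function of the elements which generate a conjugate of a given cyclic group is a linear
combination of permutation characters.
-/

set_option autoImplicit false

namespace MP7ed9c3.Zg

open NumberField IsDedekindDomain Filter Topology MP7ed9c3.Tw MP7ed9c3.Ext

section

variable {G : Type} [_root_.Group G]

private theorem Ind_map (x g : G) :
    Subgroup.zpowers (x * g * x⁻¹) = (Subgroup.zpowers g).map (MulAut.conj x).toMonoidHom := by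
  rw [MonoidHom.map_zpowers]
  rfl

private theorem Ind_refl (g : G) : ConjZ g g := ⟨1, by simp⟩

private theorem Ind_symm {g₀ g : G} (h : ConjZ g₀ g) : ConjZ g g₀ := by
  obtain ⟨x, hx⟩ := h
  refine ⟨x⁻¹, ?_⟩
  rw [Ind_map, ← hx, ← Ind_map]
  congr 1
  group

private theorem Ind_trans {g₀ g₁ g₂ : G} (h : ConjZ g₀ g₁) (h' : ConjZ g₁ g₂) : ConjZ g₀ g₂ := by
  obtain ⟨x, hx⟩ := h
  obtain ⟨y, hy⟩ := h'
  refine ⟨x * y, ?_⟩
  have e : x * y * g₂ * (x * y)⁻¹ = x * (y * g₂ * y⁻¹) * x⁻¹ := by group
  rw [e, Ind_map, hy, ← Ind_map, hx]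

private theorem Ind_fix {Y : Type} [MulAction G Y] {g₀ g x : G}
    (hx : Subgroup.zpowers (x * g * x⁻¹) = Subgroup.zpowers g₀) (y : Y) :
    g • y = y ↔ g₀ • (x • y) = x • y := by
  have h1 : ∀ (a b : G), Subgroup.zpowers a = Subgroup.zpowers b → ∀ z : Y, a • z = z →
      b • z = z := by
    intro a b hab z hz
    have h2 : Subgroup.zpowers a ≤ MulAction.stabilizer G z := by
      rw [Subgroup.zpowers_le]
      exact hz
    rw [hab, Subgroup.zpowers_le] at h2
    exact h2
  have h3 : (x * g * x⁻¹) • (x • y) = x • (g • y) := by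
    rw [← mul_smul, ← mul_smul]
    congr 1
    group
  constructor
  · intro h
    refine h1 _ _ hx _ ?_
    rw [h3, h]
  · intro h
    have h4 := h1 _ _ hx.symm _ h
    rw [h3] at h4
    exact (MulAction.injective x) h4

private theorem Ind_fx (Y : Type) [MulAction G Y] {g₀ g : G} (h : ConjZ g₀ g) :
    fx Y g = fx Y g₀ := by
  obtain ⟨x, hx⟩ := h
  unfold fx
  congr 1
  refine Nat.card_congr ?_
  exact (MulAction.toPerm x).subtypeEquiv fun y => Ind_fix hx y

variable [Fintype G]

/-- the values of the permutation character of `G ⧸ zpowers g₀` -/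
private theorem Ind_key (g₀ : G) : 0 < fx (G ⧸ Subgroup.zpowers g₀) g₀ ∧
    ∀ g, fx (G ⧸ Subgroup.zpowers g₀) g ≠ 0 → ConjZ g₀ g ∨ orderOf g < orderOf g₀ := by
  constructor
  · unfold fx
    have hne : Nonempty {y : G ⧸ Subgroup.zpowers g₀ // g₀ • y = y} := by
      refine ⟨⟨((1 : G) : G ⧸ Subgroup.zpowers g₀), ?_⟩⟩
      rw [MulAction.Quotient.smul_coe, QuotientGroup.eq]
      simp
    exact_mod_cast Nat.card_pos
  · intro g hg
    have hne : Nonempty {y : G ⧸ Subgroup.zpowers g₀ // g • y = y} := by
      by_contra hn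
      rw [not_nonempty_iff] at hn
      refine hg ?_
      unfold fx
      rw [Nat.card_of_isEmpty]
      simp
    obtain ⟨⟨y, hy⟩⟩ := hne
    obtain ⟨x, rfl⟩ := QuotientGroup.mk_surjective y
    rw [MulAction.Quotient.smul_mk, QuotientGroup.eq] at hy
    have h1 : x⁻¹ * g * x⁻¹⁻¹ ∈ Subgroup.zpowers g₀ := by
      have h2 := (Subgroup.zpowers g₀).inv_mem hy
      have e : x⁻¹ * g * x⁻¹⁻¹ = ((g • x)⁻¹ * x)⁻¹ := by
        rw [smul_eq_mul]
        group
      rw [e]
      exact h2
    have h2 : orderOf (x⁻¹ * g * x⁻¹⁻¹) = orderOf g := by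
      have h3 := MulEquiv.orderOf_eq (MulAut.conj x⁻¹) g
      exact h3
    have h3 : orderOf g ∣ orderOf g₀ := by
      rw [← h2]
      exact orderOf_dvd_of_mem_zpowers h1
    have h4 : 0 < orderOf g₀ := orderOf_pos g₀
    rcases (Nat.le_of_dvd h4 h3).eq_or_lt with h5 | h5
    · left
      refine ⟨x⁻¹, ?_⟩
      refine Subgroup.eq_of_le_of_card_ge ?_ ?_
      · rw [Subgroup.zpowers_le]
        exact h1
      · rw [Nat.card_zpowers, Nat.card_zpowers, h2, h5]
    · exact Or.inr h5

open Classical in
/-- the indicator function of a class -/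
private noncomputable def Ind_f (g₀ : G) : G → ℝ := fun g => if ConjZ g₀ g then 1 else 0

open Classical in
private theorem Ind_mem : ∀ (n : ℕ) (g₀ : G), orderOf g₀ = n → Ind_f g₀ ∈
    Submodule.span ℝ (Set.range fun (H : Subgroup G) (g : G) => fx (G ⧸ H) g) := by
  intro n
  induction n using Nat.strong_induction_on with
  | _ n ih =>
    intro g₀ hn
    obtain ⟨h0, hk⟩ := Ind_key g₀
    obtain ⟨f, hf⟩ : ∃ f : G → ℝ, f = fun g => fx (G ⧸ Subgroup.zpowers g₀) g := ⟨_, rfl⟩
    have hfm : f ∈ Submodule.span ℝ (Set.range fun (H : Subgroup G) (g : G) => fx (G ⧸ H) g) := by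
      refine Submodule.subset_span ⟨Subgroup.zpowers g₀, ?_⟩
      rw [hf]
    have hfc : ∀ a b, ConjZ a b → f b = f a := by
      intro a b hab
      rw [hf]
      exact Ind_fx _ hab
    have h0' : 0 < f g₀ := by rw [hf]; exact h0
    have hk' : ∀ g, f g ≠ 0 → ConjZ g₀ g ∨ orderOf g < orderOf g₀ := by
      intro g hg
      refine hk g ?_
      rw [hf] at hg
      exact hg
    obtain ⟨c, hc⟩ : ∃ c : G → ℝ, c = fun a =>
      ((Finset.univ.filter fun g : G => ConjZ a g).card : ℝ) := ⟨_, rfl⟩
    have hcpos : ∀ a, 0 < c a := by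
      intro a
      rw [hc]
      have h1 : 0 < (Finset.univ.filter fun g : G => ConjZ a g).card :=
        Finset.card_pos.2 ⟨a, by simp [Ind_refl a]⟩
      exact Nat.cast_pos.2 h1
    have hcc : ∀ a b, ConjZ a b → c b = c a := by
      intro a b hab
      rw [hc]
      have h1 : (Finset.univ.filter fun g : G => ConjZ b g) =
          Finset.univ.filter fun g : G => ConjZ a g := by
        ext g
        simp only [Finset.mem_filter, Finset.mem_univ, true_and]
        exact ⟨fun h => Ind_trans hab h, fun h => Ind_trans (Ind_symm hab) h⟩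
      simp only [h1]
    have hmain : f g₀ • Ind_f g₀ = f - ∑ g ∈ Finset.univ.filter (fun g : G => ¬ ConjZ g₀ g),
        (f g / c g) • Ind_f g := by
      funext a
      rw [Pi.smul_apply, Pi.sub_apply, Finset.sum_apply]
      simp only [Pi.smul_apply, smul_eq_mul]
      by_cases ha : ConjZ g₀ a
      · have h1 : ∑ g ∈ Finset.univ.filter (fun g : G => ¬ ConjZ g₀ g),
            f g / c g * Ind_f g a = 0 := by
          refine Finset.sum_eq_zero ?_
          intro g hg
          rw [Finset.mem_filter] at hg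
          have h2 : ¬ ConjZ g a := fun h => hg.2 (Ind_trans ha (Ind_symm h))
          simp [Ind_f, h2]
        rw [h1, sub_zero, hfc g₀ a ha]
        simp [Ind_f, ha]
      · have h1 : ∑ g ∈ Finset.univ.filter (fun g : G => ¬ ConjZ g₀ g),
            f g / c g * Ind_f g a = ∑ g ∈ Finset.univ.filter (fun g : G => ConjZ a g),
              f a / c a := by
          rw [← Finset.sum_filter_add_sum_filter_not
            (Finset.univ.filter (fun g : G => ¬ ConjZ g₀ g)) (fun g : G => ConjZ a g)]
          have h3 : ∑ g ∈ (Finset.univ.filter (fun g : G => ¬ ConjZ g₀ g)).filter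
              (fun g : G => ¬ ConjZ a g), f g / c g * Ind_f g a = 0 := by
            refine Finset.sum_eq_zero ?_
            intro g hg
            rw [Finset.mem_filter] at hg
            have h2 : ¬ ConjZ g a := fun h => hg.2 (Ind_symm h)
            simp [Ind_f, h2]
          rw [h3, add_zero]
          have h4 : (Finset.univ.filter (fun g : G => ¬ ConjZ g₀ g)).filter
              (fun g : G => ConjZ a g) = Finset.univ.filter (fun g : G => ConjZ a g) := by
            ext g
            simp only [Finset.mem_filter, Finset.mem_univ, true_and, and_iff_right_iff_imp]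
            exact fun h h' => ha (Ind_trans h' (Ind_symm h))
          rw [h4]
          refine Finset.sum_congr rfl ?_
          intro g hg
          rw [Finset.mem_filter] at hg
          have h2 : ConjZ g a := Ind_symm hg.2
          rw [hfc a g hg.2, hcc a g hg.2]
          simp [Ind_f, h2]
        rw [h1, Finset.sum_const, nsmul_eq_mul]
        have h5 : ((Finset.univ.filter fun g : G => ConjZ a g).card : ℝ) = c a := by rw [hc]
        rw [h5, mul_div_cancel₀ _ (hcpos a).ne']
        simp [Ind_f, ha]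
    have hmem : f g₀ • Ind_f g₀ ∈
        Submodule.span ℝ (Set.range fun (H : Subgroup G) (g : G) => fx (G ⧸ H) g) := by
      rw [hmain]
      refine Submodule.sub_mem _ hfm (Submodule.sum_mem _ ?_)
      intro g hg
      rw [Finset.mem_filter] at hg
      by_cases hg0 : f g = 0
      · rw [hg0, zero_div, zero_smul]
        exact Submodule.zero_mem _
      · rcases hk' g hg0 with h1 | h1
        · exact absurd h1 hg.2
        · exact Submodule.smul_mem _ _ (ih (orderOf g) (by rw [← hn]; exact h1) g rfl)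
    have h6 := Submodule.smul_mem _ (f g₀)⁻¹ hmem
    rwa [smul_smul, inv_mul_cancel₀ h0'.ne', one_smul] at h6

end

/-- **Ind** -/
theorem ind : S_Ind := by
  intro G _ _ g₀ h h1 h2
  have e : h = Ind_f g₀ := by
    funext g
    by_cases hg : ConjZ g₀ g
    · simp [Ind_f, hg, h1 g hg]
    · simp [Ind_f, hg, h2 g hg]
  rw [e]
  exact Ind_mem _ g₀ rfl

end MP7ed9c3.Zg
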