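import Pool.Agent.Lib.MP_7ed9c3_nt.Zg.Spec

/-!
# MP_7ed9c3_nt, part Zg: a large coefficient at a power of a prime in a given class
-/

set_option autoImplicit false

namespace MP7ed9c3.Zg

open NumberField IsDedekindDomain Filter Topology MP7ed9c3.Tw MP7ed9c3.Ext

private theorem Loc_finite_mem {K : Type} [Field K] [NumberField K] {x : 𝓞 K} (hx : x ≠ 0) :
    {v : HeightOneSpectrum (𝓞 K) | x ∈ v.asIdeal}.Finite := by
  have h0 : Ideal.span {x} ≠ 0 := by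
    intro h
    exact hx (Ideal.span_singleton_eq_bot.mp h)
  refine (Ideal.finite_factors h0).subset ?_
  intro v hv
  simp only [Set.mem_ofPred_eq] at hv ⊢
  rw [Ideal.dvd_span_singleton]
  exact hv

section

variable {K N : Type} [Field K] [NumberField K] [Field N] [NumberField N]

private theorem Loc_perm_apply (g : N ≃ₐ[ℚ] N) (φ : K →ₐ[ℚ] N) :
    perm g φ = (g : N →ₐ[ℚ] N).comp φ := rfl

private theorem Loc_perm_one : perm (K := K) (1 : N ≃ₐ[ℚ] N) = 1 := by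
  ext φ x
  rfl

private theorem Loc_perm_mul (g h : N ≃ₐ[ℚ] N) :
    perm (K := K) (g * h) = perm g * perm h := by
  ext φ x
  rfl

/-- `perm` as a homomorphism. -/
private noncomputable def Loc_hom : (N ≃ₐ[ℚ] N) →* Equiv.Perm (K →ₐ[ℚ] N) where
  toFun := perm
  map_one' := Loc_perm_one
  map_mul' := Loc_perm_mul

private theorem Loc_pow (g : N ≃ₐ[ℚ] N) (i : ℕ) (φ : K →ₐ[ℚ] N) :
    (perm g ^ i) φ = ((g ^ i : N ≃ₐ[ℚ] N) : N →ₐ[ℚ] N).comp φ := by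
  have h : (Loc_hom (K := K) g) ^ i = Loc_hom (K := K) (g ^ i) := (map_pow _ _ _).symm
  have h' : perm (K := K) g ^ i = perm (K := K) (g ^ i) := h
  rw [h']
  rfl

private theorem Loc_adm (h7 : S_AdmConj) {g₀ g : N ≃ₐ[ℚ] N} {k : ℕ} (hg : ConjZ g₀ g)
    (hA : Adm (perm (K := K) g₀) k) : Adm (perm (K := K) g) k := by
  obtain ⟨x, hx⟩ := hg
  refine h7 _ (perm g) (perm g₀) (perm x) k ?_ hA
  have h1 := congrArg (Subgroup.map (Loc_hom (K := K) (N := N))) hx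
  rw [MonoidHom.map_zpowers, MonoidHom.map_zpowers, map_mul, map_mul, map_inv] at h1
  exact h1

private theorem Loc_below (v : HeightOneSpectrum (𝓞 ℚ)) (P : Ideal (𝓞 N)) (g : N ≃ₐ[ℚ] N)
    (h : IsFrob ℚ N v P g) (hv : nm v ≠ 0) (φ : K →ₐ[ℚ] N) :
    below P ((g : N →ₐ[ℚ] N).comp φ) = below P φ := by
  have hP := h.1
  ext a
  have e1 : redHom ℚ K N P ((g : N →ₐ[ℚ] N).comp φ) a = (redHom ℚ K N P φ a) ^ nm v := by
    have h2 := h.2.2 (RingOfIntegers.mapAlgHom φ a)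
    have h3 : Ideal.Quotient.mk P (RingOfIntegers.mapAlgHom (g : N →ₐ[ℚ] N)
        (RingOfIntegers.mapAlgHom φ a)) = Ideal.Quotient.mk P ((RingOfIntegers.mapAlgHom φ a) ^ nm v) :=
      Ideal.Quotient.eq.mpr h2
    rw [map_pow] at h3
    exact h3
  unfold below
  rw [RingHom.mem_ker, RingHom.mem_ker]
  rw [e1]
  exact pow_eq_zero_iff hv

end

theorem loc (h1 : S_Per) (h2 : S_Num) (h3 : S_Bij) (h4 : S_RatP) (h5 : S_PsumE) (h6 : S_AdmC)
    (h7 : S_AdmConj) (h8 : Zs.S_Over) (h9 : Zs.S_Coef) : S_Loc := by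
  classical
  intro K N _ _ _ _ _ g₀ k hne hA α β hroots
  -- the constant
  have hc : ∀ g : N ≃ₐ[ℚ] N, ∃ c : ℝ, 0 < c ∧ (ConjZ g₀ g → ∀ ψ : (K →ₐ[ℚ] N) → ℝ,
      (∀ y, ψ (perm g y) = ψ y) → ∃ j : ℕ, 1 ≤ j ∧ j ≤ k ∧ c ≤ |csum (perm g) ψ j|) := by
    intro g
    by_cases hg : ConjZ g₀ g
    · obtain ⟨c, hc0, hc⟩ := h6 _ (perm g) k (Loc_adm h7 hg hA)
      exact ⟨c, hc0, fun _ => hc⟩
    · exact ⟨1, one_pos, fun h => absurd h hg⟩
  choose cf hcf0 hcf using hc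
  obtain ⟨gm, hgm⟩ := Finite.exists_min cf
  have hk : 1 ≤ k := by
    obtain ⟨j, hj1, hj2, _⟩ := hA (fun _ => 0) (fun _ => rfl)
    exact hj1.trans hj2
  have hkr : (0 : ℝ) < k := by exact_mod_cast hk
  obtain ⟨D, hD0, hD⟩ := h3 ℚ K N hne
  set Bad : Set (HeightOneSpectrum (𝓞 K)) :=
    {w | ¬ (‖α w‖ = √(nm w) ∧ α w * β w = (nm w : ℂ))} with hBad
  refine ⟨2 * cf gm / k, {v | D ∈ v.asIdeal} ∪
    ⋃ w ∈ Bad, {v | w.asIdeal.comap (algebraMap (𝓞 ℚ) (𝓞 K)) = v.asIdeal}, ?_, ?_, ?_⟩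
  · have := hcf0 gm
    positivity
  · refine (Loc_finite_mem hD0).union (Set.Finite.biUnion hroots (fun w _ => ?_))
    apply Set.Subsingleton.finite
    intro v hv v' hv'
    simp only [Set.mem_ofPred_eq] at hv hv'
    exact HeightOneSpectrum.ext (hv.symm.trans hv')
  intro v hv P g hF hconj
  have hp : (nm v).Prime := h4.1 v
  have hDv : D ∉ v.asIdeal := fun h => hv (Or.inl h)
  have hbad : ∀ w : HeightOneSpectrum (𝓞 K),
      w.asIdeal.comap (algebraMap (𝓞 ℚ) (𝓞 K)) = v.asIdeal →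
      ‖α w‖ = √(nm w) ∧ α w * β w = (nm w : ℂ) := by
    intro w hw
    by_contra hcon
    apply hv
    right
    rw [Set.mem_iUnion₂]
    exact ⟨w, hcon, hw⟩
  have hDP : algebraMap (𝓞 ℚ) (𝓞 N) D ∉ P := by
    intro h
    apply hDv
    rw [← hF.2.1]
    exact h
  have hbij := hD P hF.1 hDP
  obtain ⟨hN1, hN2⟩ := h2 ℚ K N v P hF.1 hF.2.1 hne hbij.1
  choose wf hwf1 hwf2 using hN1
  obtain ⟨s, f, hover, hsne, hsum⟩ := h8 K (nm v) hp
  have hs1 := hover.1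
  have hs2 := hover.2
  have hcomap : ∀ w ∈ s, w.asIdeal.comap (algebraMap (𝓞 ℚ) (𝓞 K)) = v.asIdeal := by
    intro w hw
    exact h4.2.2 K w v (f w) (hs1 w hw).2
  have hmem : ∀ y : K →ₐ[ℚ] N, wf y ∈ s := by
    intro y
    obtain ⟨f', _, hf', _⟩ := hN2 (wf y) (hwf2 y)
    exact hs2 (wf y) f' hf'
  have hfeq : ∀ w ∈ s, ∀ f' : ℕ, nm w = nm v ^ f' → f' = f w := by
    intro w hw f' hf'
    rw [(hs1 w hw).2] at hf'
    exact (Nat.pow_right_injective hp.two_le hf').symm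
  have hinv : ∀ y : K →ₐ[ℚ] N, wf (perm g y) = wf y := by
    intro y
    apply HeightOneSpectrum.ext
    rw [← hwf1, ← hwf1, Loc_perm_apply]
    exact Loc_below v P g hF hp.ne_zero y
  have hcard : ∀ j ∈ s, Nat.card {y : K →ₐ[ℚ] N // wf y = j} = f j := by
    intro j hj
    obtain ⟨f', _, hf', hcard'⟩ := hN2 j (hcomap j hj)
    rw [← hfeq j hj f' hf', ← hcard']
    refine Nat.card_congr (Equiv.subtypeEquivRight (fun y => ?_))
    rw [hwf1 y]
    exact HeightOneSpectrum.ext_iff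
  have hper : ∀ (y : K →ₐ[ℚ] N) (i : ℕ), (perm g ^ i) y = y ↔ f (wf y) ∣ i := by
    intro y i
    have hw := hmem y
    rw [Loc_pow]
    exact h1 ℚ K N v P g hF hbij.1 y (wf y) (f (wf y)) (hs1 _ hw).1 (hs1 _ hw).2 (hwf1 y) i
  have hpr : (0 : ℝ) < (nm v : ℝ) := by exact_mod_cast hp.pos
  obtain ⟨ψ, hψ1, hψ2⟩ := h5 (HeightOneSpectrum (𝓞 K)) (K →ₐ[ℚ] N) s f α β (nm v : ℝ) (perm g) wf
    hpr (by
      intro j hj
      obtain ⟨ha, hb⟩ := hbad j (hcomap j hj)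
      have hnm := (hs1 j hj).2
      refine ⟨(hs1 j hj).1, ?_, ?_⟩
      · rw [ha, hnm]; push_cast; rfl
      · rw [hb, hnm]; push_cast; rfl) hmem hinv hcard hper
  obtain ⟨j, hj1, hj2, hj3⟩ := hcf g hconj ψ hψ1
  refine ⟨j, hj1, hj2, ?_⟩
  have hjr : (0 : ℝ) < j := by exact_mod_cast hj1
  have hjk : (j : ℝ) ≤ k := by exact_mod_cast hj2
  rw [h9 K α β (nm v) hp s f hover j hj1, hψ2 j, norm_div, Complex.norm_real, Real.norm_eq_abs,
    Complex.norm_natCast, abs_mul, abs_mul, abs_two, abs_of_nonneg (Real.sqrt_nonneg _)]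
  have h10 : cf gm ≤ |csum (perm g) ψ j| := (hgm g).trans hj3
  have h11 := Real.sqrt_nonneg ((nm v : ℝ) ^ j)
  have h12 := (hcf0 gm).le
  rw [le_div_iff₀ hjr]
  calc 2 * cf gm / k * √((nm v : ℝ) ^ j) * j
      = 2 * √((nm v : ℝ) ^ j) * cf gm * (j / k) := by ring
    _ ≤ 2 * √((nm v : ℝ) ^ j) * cf gm * 1 := by
        apply mul_le_mul_of_nonneg_left _ (by positivity)
        rw [div_le_one hkr]
        exact hjk
    _ ≤ 2 * √((nm v : ℝ) ^ j) * |csum (perm g) ψ j| := by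
        rw [mul_one]
        exact mul_le_mul_of_nonneg_left h10 (by positivity)

end MP7ed9c3.Zg
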