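import Pool.Agent.Lib.MP_7ed9c3_nt.Zg.Spec

/-!
# MP_7ed9c3_nt, Zg: many primes with a large coefficient
-/

set_option autoImplicit false

namespace MP7ed9c3.Zg

open NumberField IsDedekindDomain Filter Topology MP7ed9c3.Tw MP7ed9c3.Ext

/-- Changing a bounded function at finitely many places does not change the mean value. -/
private theorem Many_change {X : Type} (q : X → ℕ) (hq : NormsB q) (f g : X → ℝ) (L : ℝ)
    (S : Set X) (hS : S.Finite) (hf : ∀ v, |f v| ≤ 1) (hg : ∀ v, |g v| ≤ 1)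
    (h : ∀ v, v ∉ S → f v = g v) (hm : BMean q f L) : BMean q g L := by
  classical
  obtain ⟨C, hC⟩ := hm
  refine ⟨C + 2 * hS.toFinset.card, fun x hx0 hx1 => ?_⟩
  have hs : Summable fun v => (q v : ℝ) ^ (-(1 + x)) := hq.2.1 (1 + x) (by linarith)
  have hpos : ∀ v, 0 ≤ (q v : ℝ) ^ (-(1 + x)) := fun v => Real.rpow_nonneg (Nat.cast_nonneg _) _
  have hle1 : ∀ v, (q v : ℝ) ^ (-(1 + x)) ≤ 1 := by
    intro v
    have h2 : (1 : ℝ) ≤ q v := by exact_mod_cast (by norm_num : 1 ≤ 2).trans (hq.1 v)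
    exact Real.rpow_le_one_of_one_le_of_nonpos h2 (by linarith)
  have hsum : ∀ u : X → ℝ, (∀ v, |u v| ≤ 1) →
      Summable fun v => u v * (q v : ℝ) ^ (-(1 + x)) := by
    intro u hu
    refine Summable.of_norm_bounded hs fun v => ?_
    rw [norm_mul, Real.norm_eq_abs, Real.norm_eq_abs, abs_of_nonneg (hpos v)]
    exact mul_le_of_le_one_left (hpos v) (hu v)
  have hdiff : Qs q x g - Qs q x f =
      ∑ v ∈ hS.toFinset, (g v - f v) * (q v : ℝ) ^ (-(1 + x)) := by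
    unfold Qs
    rw [← (hsum g hg).tsum_sub (hsum f hf), tsum_eq_sum (s := hS.toFinset)]
    · exact Finset.sum_congr rfl fun v _ => by ring
    · intro v hv
      have hv' : v ∉ S := by simpa using hv
      rw [h v hv']
      ring
  have hbound : |Qs q x g - Qs q x f| ≤ 2 * hS.toFinset.card := by
    rw [hdiff]
    refine (Finset.abs_sum_le_sum_abs _ _).trans ?_
    have h3 : ∀ v ∈ hS.toFinset, |(g v - f v) * (q v : ℝ) ^ (-(1 + x))| ≤ 2 := by
      intro v _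
      rw [abs_mul, abs_of_nonneg (hpos v)]
      have h4 : |g v - f v| ≤ 2 := by
        refine (abs_sub _ _).trans ?_
        linarith [hf v, hg v]
      calc |g v - f v| * (q v : ℝ) ^ (-(1 + x)) ≤ 2 * 1 :=
            mul_le_mul h4 (hle1 v) (hpos v) (by norm_num)
        _ = 2 := by norm_num
    refine (Finset.sum_le_sum h3).trans (le_of_eq ?_)
    rw [Finset.sum_const, nsmul_eq_mul]
    ring
  have h5 := hC x hx0 hx1
  calc |Qs q x g - L * Real.log (1 / x)| =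
      |(Qs q x g - Qs q x f) + (Qs q x f - L * Real.log (1 / x))| := by
        congr 1
        ring
    _ ≤ |Qs q x g - Qs q x f| + |Qs q x f - L * Real.log (1 / x)| := abs_add_le _ _
    _ ≤ C + 2 * hS.toFinset.card := by linarith

theorem many (h1 : S_Loc) (h2 : S_Frob) (h3 : S_TransB) (h4 : S_ClassB) (h5 : S_Mid)
    (h6 : S_Dyad) (h7 : S_RatP) : S_Many := by
  classical
  intro K N _ _ _ _ _ g₀ k hne hadm α β hroots
  obtain ⟨c, S, hc, hS, hloc⟩ := h1 K N g₀ k hne hadm α β hroots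
  refine ⟨c, hc, fun ε hε => ?_⟩
  choose P σ hP using h2 ℚ N
  obtain ⟨hN, hT⟩ := h3 ℚ N σ fun v => ⟨P v, hP v⟩
  obtain ⟨δ, hδ, hmean⟩ := h4 (HeightOneSpectrum (𝓞 ℚ)) (N ≃ₐ[ℚ] N) (fun v => nm v) σ hN hT g₀
    (fun v => if ConjZ g₀ (σ v) then 1 else 0) (fun v hv => if_pos hv) (fun v hv => if_neg hv)
  set f : HeightOneSpectrum (𝓞 ℚ) → ℝ := fun v => if ConjZ g₀ (σ v) ∧ v ∉ S then 1 else 0
    with hf
  have hf01 : ∀ v, f v = 0 ∨ f v = 1 := by
    intro v
    rw [hf]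
    by_cases h : ConjZ g₀ (σ v) ∧ v ∉ S
    · exact Or.inr (if_pos h)
    · exact Or.inl (if_neg h)
  have hf1 : ∀ v, f v = 1 → ConjZ g₀ (σ v) ∧ v ∉ S := by
    intro v hv
    by_contra h
    rw [hf] at hv
    simp only [if_neg h] at hv
    exact zero_ne_one hv
  have hmean' : BMean (fun v : HeightOneSpectrum (𝓞 ℚ) => nm v) f δ := by
    refine Many_change _ hN (fun v => if ConjZ g₀ (σ v) then 1 else 0) f δ S hS ?_ ?_ ?_ hmean
    · intro v
      by_cases h : ConjZ g₀ (σ v)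
      · simp [h]
      · simp [h]
    · intro v
      rcases hf01 v with h | h <;> simp [h]
    · intro v hv
      by_cases h : ConjZ g₀ (σ v)
      · simp [hf, h, hv]
      · simp [hf, h]
  obtain ⟨M, Y₀, hM, hMid⟩ := h5 _ (fun v => nm v) f δ hN hf01 hδ hmean'
  obtain ⟨B, Y₁, hB, hD⟩ := h6 _ (fun v => nm v) f M Y₀ hM hMid ε hε
  refine ⟨B, Y₁, hB, fun Y hY => ?_⟩
  obtain ⟨Pn, T, hP1, hP2, hcard, hTT⟩ := hD Y hY
  refine ⟨Pn, T.image fun v => nm v, hP1, hP2, ?_, ?_⟩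
  · rw [Finset.card_image_of_injective _ fun v v' h => h7.2.1 v v' h]
    exact hcard
  · intro p hp
    obtain ⟨v, hv, rfl⟩ := Finset.mem_image.1 hp
    obtain ⟨hv1, hv2⟩ := hTT v hv
    obtain ⟨hv3, hv4⟩ := hf1 v hv1
    exact ⟨h7.1 v, hv2, hloc v hv4 (P v) (σ v) (hP v) hv3⟩

end MP7ed9c3.Zg
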