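import Pool.Agent.Lib.MP_7ed9c3_nt.Zg.Spec

/-!
# A positive mean value forces a large sum over a range `(Y, Y^M]`
-/

set_option autoImplicit false

namespace MP7ed9c3.Zg

open NumberField IsDedekindDomain Filter Topology MP7ed9c3.Tw MP7ed9c3.Ext

private lemma Mid_a {u : ℝ} (h0 : 0 ≤ u) (h1 : u ≤ 1) :
    1 - Real.exp (-u) ≤ 5 * (Real.exp (-(u / 2)) - Real.exp (-(2 * u))) := by
  have h2 : 1 - Real.exp (-u) ≤ u := by linarith [Real.add_one_le_exp (-u)]
  have h3 : Real.exp (-(u / 2)) = Real.exp (-(2 * u)) * Real.exp (3 / 2 * u) := by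
    rw [← Real.exp_add]; congr 1; ring
  have h4 : 3 / 2 * u + 1 ≤ Real.exp (3 / 2 * u) := Real.add_one_le_exp _
  have h5 : (2 / 15 : ℝ) ≤ Real.exp (-(2 * u)) := by
    have h6 : Real.exp (2 * u) ≤ 15 / 2 := by
      have h7 : Real.exp (2 * u) ≤ Real.exp 2 := Real.exp_le_exp.2 (by linarith)
      have h8 : Real.exp 2 = Real.exp 1 * Real.exp 1 := by rw [← Real.exp_add]; norm_num
      nlinarith [Real.exp_one_lt_d9, Real.exp_pos 1]
    have h9 : Real.exp (2 * u) * Real.exp (-(2 * u)) = 1 := by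
      rw [← Real.exp_add]; simp
    nlinarith [Real.exp_pos (-(2 * u))]
  rw [h3]
  nlinarith [mul_nonneg (sub_nonneg.2 h5) (sub_nonneg.2 h4), Real.exp_pos (-(2 * u))]

private lemma Mid_b {u : ℝ} (h1 : 1 ≤ u) :
    Real.exp (-u) ≤ 2 * (Real.exp (-(u / 2)) - Real.exp (-(2 * u))) := by
  set t := Real.exp (-(u / 2)) with ht
  have ht0 : 0 < t := Real.exp_pos _
  have h2 : Real.exp (-u) = t ^ 2 := by
    rw [ht, ← Real.exp_nat_mul]; congr 1; push_cast; ring
  have h3 : Real.exp (-(2 * u)) = t ^ 4 := by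
    rw [ht, ← Real.exp_nat_mul]; congr 1; push_cast; ring
  have h4 : t ≤ 2 / 3 := by
    have h5 : Real.exp (u / 2) * t = 1 := by
      rw [ht, ← Real.exp_add]; simp
    have h6 := Real.add_one_le_exp (u / 2)
    nlinarith
  rw [h2, h3]
  have h7 : t ^ 3 ≤ 8 / 27 := by
    calc t ^ 3 ≤ (2 / 3) ^ 3 := by gcongr
      _ = 8 / 27 := by norm_num
  have h8 : t + 2 * t ^ 3 ≤ 2 := by linarith
  nlinarith

private lemma Mid_e {q : ℝ} (hq : 0 < q) (s : ℝ) :
    q ^ (-(1 + s)) = q⁻¹ * Real.exp (-(s * Real.log q)) := by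
  rw [Real.rpow_def_of_pos hq]
  have : Real.log q * -(1 + s) = -Real.log q + -(s * Real.log q) := by ring
  rw [this, Real.exp_add, Real.exp_neg, Real.exp_log hq]

open Classical in
private lemma Mid_pt {q x M Y : ℝ} (hq : 2 ≤ q) (hY : 1 < Y) (hM : 1 ≤ M)
    (hx : x = 1 / Real.log Y) :
    q ^ (-(1 + x / M)) - q ^ (-(1 + x)) ≤
      5 * (q ^ (-(1 + x / 2)) - q ^ (-(1 + 2 * x))) +
      2 * (q ^ (-(1 + x / (2 * M))) - q ^ (-(1 + 2 * x / M))) +
      (if Y < q ∧ q ≤ Y ^ M then 1 / q else 0) := by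
  have hq0 : 0 < q := by linarith
  have hL : 0 < Real.log q := Real.log_pos (by linarith)
  have hlY : 0 < Real.log Y := Real.log_pos hY
  have hx0 : 0 < x := by rw [hx]; positivity
  have hM0 : 0 < M := by linarith
  simp only [Mid_e hq0]
  set L := Real.log q with hLdef
  have key : Real.exp (-(x / M * L)) - Real.exp (-(x * L)) ≤
      5 * (Real.exp (-(x / 2 * L)) - Real.exp (-(2 * x * L))) +
      2 * (Real.exp (-(x / (2 * M) * L)) - Real.exp (-(2 * x / M * L))) +
      (if Y < q ∧ q ≤ Y ^ M then 1 else 0) := by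
    have hA : 0 ≤ Real.exp (-(x / 2 * L)) - Real.exp (-(2 * x * L)) := by
      rw [sub_nonneg]; apply Real.exp_le_exp.2
      nlinarith [mul_pos hx0 hL]
    have hxM : 0 < x / M := by positivity
    have hB : 0 ≤ Real.exp (-(x / (2 * M) * L)) - Real.exp (-(2 * x / M * L)) := by
      rw [sub_nonneg]; apply Real.exp_le_exp.2
      have e1 : x / (2 * M) = x / M / 2 := by field_simp
      have e2 : 2 * x / M = 2 * (x / M) := by ring
      rw [e1, e2]
      nlinarith [mul_pos hxM hL]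
    have h1 : Real.exp (-(x / M * L)) ≤ 1 := Real.exp_le_one_iff.2 (by nlinarith [mul_pos hxM hL])
    by_cases c1 : q ≤ Y
    · have hn : ¬ (Y < q ∧ q ≤ Y ^ M) := fun h => absurd h.1 (not_lt.2 c1)
      rw [if_neg hn]
      have hu0 : 0 ≤ x * L := by positivity
      have hu1 : x * L ≤ 1 := by
        rw [hx]
        have : L ≤ Real.log Y := Real.log_le_log hq0 c1
        rw [one_div, inv_mul_le_iff₀ hlY]; linarith
      have h2 := Mid_a hu0 hu1
      have e1 : x / 2 * L = x * L / 2 := by ring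
      have e2 : 2 * x * L = 2 * (x * L) := by ring
      rw [e1, e2] at *
      linarith
    · by_cases c2 : q ≤ Y ^ M
      · rw [if_pos ⟨not_le.1 c1, c2⟩]
        have := Real.exp_pos (-(x * L))
        linarith
      · rw [if_neg (fun h => c2 h.2)]
        have hu1 : 1 ≤ x / M * L := by
          have h3 : Real.log (Y ^ M) ≤ L :=
            Real.log_le_log (Real.rpow_pos_of_pos (by linarith) _) (not_le.1 c2).le
          rw [Real.log_rpow (by linarith)] at h3
          rw [hx, div_div, one_div, ← div_eq_inv_mul, le_div_iff₀ (by positivity)]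
          linarith
        have h2 := Mid_b hu1
        have e1 : x / (2 * M) * L = x / M * L / 2 := by field_simp
        have e2 : 2 * x / M * L = 2 * (x / M * L) := by ring
        rw [e1, e2] at *
        have := Real.exp_pos (-(x * L))
        linarith
  have hqi : 0 < q⁻¹ := by positivity
  have := mul_le_mul_of_nonneg_left key hqi.le
  have e3 : q⁻¹ * (if Y < q ∧ q ≤ Y ^ M then (1 : ℝ) else 0) =
      (if Y < q ∧ q ≤ Y ^ M then 1 / q else 0) := by
    split_ifs <;> simp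
  rw [← e3]
  nlinarith [this]

private lemma Mid_fin {X : Type} {q : X → ℕ} (h : NormsB q) (Z : ℝ) :
    {v : X | (q v : ℝ) ≤ Z}.Finite := by
  have h1 := (h.2.1 2 (by norm_num)).tendsto_cofinite_zero
  have hZ : 0 < (max Z 1) ^ (-(2 : ℝ)) := Real.rpow_pos_of_pos (by positivity) _
  have h2 := h1.eventually (gt_mem_nhds hZ)
  rw [Filter.eventually_cofinite] at h2
  refine h2.subset ?_
  intro v hv
  simp only [Set.mem_ofPred_eq, not_lt] at hv ⊢
  have hq : (2 : ℝ) ≤ q v := by exact_mod_cast h.1 v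
  exact Real.rpow_le_rpow_of_nonpos (by linarith) (hv.trans (le_max_left _ _)) (by norm_num)

private lemma Mid_sum {X : Type} {q : X → ℕ} (h : NormsB q) {f : X → ℝ}
    (hf : ∀ v, f v = 0 ∨ f v = 1) {s : ℝ} (hs : 0 < s) :
    Summable fun v => f v * (q v : ℝ) ^ (-(1 + s)) := by
  refine Summable.of_norm_bounded (h.2.1 (1 + s) (by linarith)) fun v => ?_
  have hq : (0 : ℝ) ≤ (q v : ℝ) ^ (-(1 + s)) := by positivity
  rcases hf v with h0 | h0
  · rw [h0]; simpa using hq
  · rw [h0, one_mul, Real.norm_of_nonneg hq]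

theorem mid : S_Mid := by
  intro X q f δ hN hf hδ hB
  obtain ⟨C₂, hC₂⟩ := hB
  obtain ⟨C₁, hC₁⟩ := hN.2.2
  have hC₂0 : 0 ≤ C₂ := (abs_nonneg _).trans (hC₂ 1 one_pos le_rfl)
  have hC₁0 : 0 ≤ C₁ := (abs_nonneg _).trans (hC₁ 1 one_pos le_rfl)
  have hl4 : 0 < Real.log 4 := Real.log_pos (by norm_num)
  set M := Real.exp ((1 + 2 * C₂ + 7 * (Real.log 4 + 2 * C₁)) / δ) with hMdef
  have hM : 1 ≤ M := Real.one_le_exp (by positivity)
  have hM0 : 0 < M := by linarith
  have hlM : δ * Real.log M = 1 + 2 * C₂ + 7 * (Real.log 4 + 2 * C₁) := by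
    rw [hMdef, Real.log_exp]; field_simp
  refine ⟨M, Real.exp 2, hM, fun Y hY => ?_⟩
  classical
  have hY1 : 1 < Y := lt_of_lt_of_le (Real.one_lt_exp_iff.2 (by norm_num)) hY
  have hlY : 2 ≤ Real.log Y := by
    rw [Real.le_log_iff_exp_le (by linarith)]; exact hY
  set x := 1 / Real.log Y with hx
  have hx0 : 0 < x := by positivity
  have hx2 : x ≤ 1 / 2 := by
    rw [hx]; exact one_div_le_one_div_of_le (by norm_num) hlY
  have hfin : {v : X | f v = 1 ∧ Y < q v ∧ (q v : ℝ) ≤ Y ^ M}.Finite :=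
    (Mid_fin hN (Y ^ M)).subset fun v hv => hv.2.2
  set T := hfin.toFinset with hT
  have hTm : ∀ v, v ∈ T ↔ (f v = 1 ∧ Y < q v ∧ (q v : ℝ) ≤ Y ^ M) := fun v => by
    rw [hT, Set.Finite.mem_toFinset]; rfl
  refine ⟨T, fun v hv => (hTm v).1 hv, ?_⟩
  -- the pointwise inequality
  have hone : ∀ v : X, (1 : ℝ) = 0 ∨ (1 : ℝ) = 1 := fun _ => Or.inr rfl
  have S1 : ∀ {s : ℝ}, 0 < s → Summable fun v => (1 : ℝ) * (q v : ℝ) ^ (-(1 + s)) :=
    fun hs => Mid_sum hN (f := fun _ => 1) hone hs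
  have Sf : ∀ {s : ℝ}, 0 < s → Summable fun v => f v * (q v : ℝ) ^ (-(1 + s)) :=
    fun hs => Mid_sum hN hf hs
  have hxM : 0 < x / M := by positivity
  have hx2' : 0 < x / 2 := by positivity
  have h2x : 0 < 2 * x := by positivity
  have hx2M : 0 < x / (2 * M) := by positivity
  have h2xM : 0 < 2 * x / M := by positivity
  have hpt : ∀ v, f v * (q v : ℝ) ^ (-(1 + x / M)) - f v * (q v : ℝ) ^ (-(1 + x)) ≤
      (5 * (1 * (q v : ℝ) ^ (-(1 + x / 2)) - 1 * (q v : ℝ) ^ (-(1 + 2 * x))) +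
      2 * (1 * (q v : ℝ) ^ (-(1 + x / (2 * M))) - 1 * (q v : ℝ) ^ (-(1 + 2 * x / M)))) +
      (if v ∈ T then 1 / (q v : ℝ) else 0) := by
    intro v
    have hq : (2 : ℝ) ≤ q v := by exact_mod_cast hN.1 v
    have hp := Mid_pt (x := x) hq hY1 hM hx
    have hq1 : (1 : ℝ) ≤ q v := by linarith
    have hA : (q v : ℝ) ^ (-(1 + 2 * x)) ≤ (q v : ℝ) ^ (-(1 + x / 2)) :=
      Real.rpow_le_rpow_of_exponent_le hq1 (by linarith)
    have hB' : (q v : ℝ) ^ (-(1 + 2 * x / M)) ≤ (q v : ℝ) ^ (-(1 + x / (2 * M))) := by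
      apply Real.rpow_le_rpow_of_exponent_le hq1
      have e1 : x / (2 * M) = x / M / 2 := by field_simp
      have e2 : 2 * x / M = 2 * (x / M) := by ring
      rw [e1, e2]; linarith
    rcases hf v with h0 | h0
    · have hnT : v ∉ T := fun h => by
        have := ((hTm v).1 h).1
        rw [h0] at this; norm_num at this
      rw [h0, if_neg hnT]
      linarith
    · have hiff : v ∈ T ↔ (Y < (q v : ℝ) ∧ (q v : ℝ) ≤ Y ^ M) := by
        rw [hTm v]; exact ⟨fun h => h.2, fun h => ⟨h0, h⟩⟩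
      rw [h0]
      simp only [one_mul]
      simp only [hiff]
      exact hp
  have hsT : HasSum (fun v => if v ∈ T then 1 / (q v : ℝ) else 0) (∑ v ∈ T, 1 / (q v : ℝ)) := by
    have h1 : HasSum (fun v => if v ∈ T then 1 / (q v : ℝ) else 0)
        (∑ v ∈ T, if v ∈ T then 1 / (q v : ℝ) else 0) :=
      hasSum_sum_of_ne_finset_zero (fun v hv => if_neg hv)
    have h2 : ∑ v ∈ T, (if v ∈ T then 1 / (q v : ℝ) else 0) = ∑ v ∈ T, 1 / (q v : ℝ) :=
      Finset.sum_congr rfl fun v hv => if_pos hv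
    rwa [h2] at h1
  have hL := (Sf hxM).hasSum.sub (Sf hx0).hasSum
  have hR := ((((S1 hx2').hasSum.sub (S1 h2x).hasSum).mul_left 5).add
    (((S1 hx2M).hasSum.sub (S1 h2xM).hasSum).mul_left 2)).add hsT
  have hle := hasSum_le hpt hL hR
  have q1 := hC₂ (x / M) hxM (by
    rw [div_le_one hM0]; linarith)
  have q2 := hC₂ x hx0 (by linarith)
  have q3 := hC₁ (x / 2) hx2' (by linarith)
  have q4 := hC₁ (2 * x) h2x (by linarith)
  have q5 := hC₁ (x / (2 * M)) hx2M (by
    rw [div_le_one (by positivity)]; linarith)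
  have q6 := hC₁ (2 * x / M) h2xM (by
    rw [div_le_one hM0]; linarith)
  have hl4' : Real.log 4 = 2 * Real.log 2 := by
    rw [show (4 : ℝ) = 2 ^ 2 by norm_num, Real.log_pow]; norm_num
  have l1 : Real.log (1 / (x / M)) = Real.log M - Real.log x := by
    rw [one_div_div, Real.log_div hM0.ne' hx0.ne']
  have l2 : Real.log (1 / x) = - Real.log x := by
    rw [one_div, Real.log_inv]
  have l3 : Real.log (1 / (x / 2)) = Real.log 2 - Real.log x := by
    rw [one_div_div, Real.log_div two_ne_zero hx0.ne']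
  have l4 : Real.log (1 / (2 * x)) = - Real.log 2 - Real.log x := by
    rw [one_div, Real.log_inv, Real.log_mul two_ne_zero hx0.ne']; ring
  have l5 : Real.log (1 / (x / (2 * M))) = Real.log 2 + Real.log M - Real.log x := by
    rw [one_div_div, Real.log_div (by positivity) hx0.ne', Real.log_mul two_ne_zero hM0.ne']
  have l6 : Real.log (1 / (2 * x / M)) = Real.log M - Real.log 2 - Real.log x := by
    rw [one_div_div, Real.log_div hM0.ne' (by positivity), Real.log_mul two_ne_zero hx0.ne']; ring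
  rw [l1] at q1
  rw [l2] at q2
  rw [l3] at q3
  rw [l4] at q4
  rw [l5] at q5
  rw [l6] at q6
  rw [abs_le] at q1 q2 q3 q4 q5 q6
  simp only [Qs] at q1 q2 q3 q4 q5 q6
  have f1 : δ * (Real.log M - Real.log x) = δ * Real.log M - δ * Real.log x := by ring
  have f2 : δ * (-Real.log x) = -(δ * Real.log x) := by ring
  rw [f1] at q1
  rw [f2] at q2
  linarith [q1.1, q2.2, q3.2, q4.1, q5.2, q6.1]

end MP7ed9c3.Zg
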