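import Pool.Agent.Lib.MP_7ed9c3_nt.Zg.Spec

/-!
# MP_7ed9c3_nt, part Zg, Num: the number of embeddings over a prime of residue degree `f`
-/

set_option autoImplicit false

namespace MP7ed9c3.Zg

open NumberField IsDedekindDomain Filter Topology MP7ed9c3.Tw MP7ed9c3.Ext

section

variable (K F N : Type) [Field K] [NumberField K] [Field F] [NumberField F] [Field N]
  [NumberField N] [Algebra K F] [Algebra K N]

omit [NumberField N] in
private theorem card_emb [IsGalois K N] (h : Nonempty (F →ₐ[K] N)) :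
    Fintype.card (F →ₐ[K] N) = Module.finrank K F := by
  obtain ⟨φ⟩ := h
  let pb := Field.powerBasisOfFiniteOfSeparable K F
  rw [← Nat.card_eq_fintype_card,
    AlgHom.natCard_of_powerBasis pb (Algebra.IsSeparable.isSeparable K pb.gen) ?_, pb.finrank]
  have h1 : (minpoly K (φ pb.gen)) = minpoly K pb.gen := minpoly.algHom_eq φ φ.injective _
  rw [← h1]
  exact Normal.splits inferInstance _

private theorem below_comap (v : HeightOneSpectrum (𝓞 K)) (P : Ideal (𝓞 N))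
    (hc : P.comap (algebraMap (𝓞 K) (𝓞 N)) = v.asIdeal) (φ : F →ₐ[K] N) :
    (below P φ).comap (algebraMap (𝓞 K) (𝓞 F)) = v.asIdeal := by
  ext a
  rw [← hc, Ideal.mem_comap, Ideal.mem_comap]
  unfold below
  rw [RingHom.mem_ker, AlgHom.commutes]
  exact Ideal.Quotient.eq_zero_iff_mem

/-- at most as many embeddings as the residue degree -/
private theorem card_le (v : HeightOneSpectrum (𝓞 K)) (P : Ideal (𝓞 N)) (hP : P.IsPrime)
    (hc : P.comap (algebraMap (𝓞 K) (𝓞 N)) = v.asIdeal)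
    (hinj : Function.Injective (redHom K F N P)) (w : HeightOneSpectrum (𝓞 F))
    (hw : w.asIdeal.comap (algebraMap (𝓞 K) (𝓞 F)) = v.asIdeal) (f : ℕ)
    (hf : nm w = nm v ^ f) :
    Nat.card {φ : F →ₐ[K] N // below P φ = w.asIdeal} ≤ f := by
  classical
  have i1 : P.LiesOver v.asIdeal := ⟨hc.symm⟩
  have i2 : w.asIdeal.LiesOver v.asIdeal := ⟨hw.symm⟩
  have hdom : IsDomain (𝓞 N ⧸ P) := Ideal.Quotient.isDomain P
  have hmax : v.asIdeal.IsMaximal := v.isMaximal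
  let _ : Field (𝓞 K ⧸ v.asIdeal) := Ideal.Quotient.field v.asIdeal
  have hcA : Nat.card (𝓞 K ⧸ v.asIdeal) = nm v := rfl
  have hcB : Nat.card (𝓞 F ⧸ w.asIdeal) = nm w := rfl
  have h2 : 2 ≤ nm v := by
    have : 1 < Ideal.absNorm v.asIdeal := HeightOneSpectrum.one_lt_absNorm v
    exact this
  have h2w : 2 ≤ nm w := by
    have : 1 < Ideal.absNorm w.asIdeal := HeightOneSpectrum.one_lt_absNorm w
    exact this
  have fA : Finite (𝓞 K ⧸ v.asIdeal) := Nat.finite_of_card_ne_zero (by rw [hcA]; omega)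
  have fB : Finite (𝓞 F ⧸ w.asIdeal) := Nat.finite_of_card_ne_zero (by rw [hcB]; omega)
  have fM : Module.Finite (𝓞 K ⧸ v.asIdeal) (𝓞 F ⧸ w.asIdeal) := Module.Finite.of_finite
  have hfr : Module.finrank (𝓞 K ⧸ v.asIdeal) (𝓞 F ⧸ w.asIdeal) = f := by
    have h := Module.natCard_eq_pow_finrank (K := 𝓞 K ⧸ v.asIdeal) (V := 𝓞 F ⧸ w.asIdeal)
    rw [hcA, hcB, hf] at h
    exact (Nat.pow_right_injective h2 h).symm
  have hle := card_algHom_le_finrank (𝓞 K ⧸ v.asIdeal) (𝓞 F ⧸ w.asIdeal) (𝓞 N ⧸ P)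
  rw [hfr] at hle
  refine le_trans ?_ hle
  have fH : Finite ((𝓞 F ⧸ w.asIdeal) →ₐ[𝓞 K ⧸ v.asIdeal] (𝓞 N ⧸ P)) :=
    Finite.algHom _ _ _
  let G : {φ : F →ₐ[K] N // below P φ = w.asIdeal} →
      ((𝓞 F ⧸ w.asIdeal) →ₐ[𝓞 K ⧸ v.asIdeal] (𝓞 N ⧸ P)) := fun φ =>
    { Ideal.Quotient.lift w.asIdeal (redHom K F N P φ.1 : 𝓞 F →+* (𝓞 N ⧸ P)) (by
        intro a ha
        rw [← φ.2] at ha
        exact ha) with
      commutes' := by
        intro r
        obtain ⟨a, rfl⟩ := Ideal.Quotient.mk_surjective r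
        show redHom K F N P φ.1 (algebraMap (𝓞 K) (𝓞 F) a) = _
        rw [AlgHom.commutes]
        rfl }
  have hG : ∀ φ a, G φ (Ideal.Quotient.mk w.asIdeal a) = redHom K F N P φ.1 a := fun _ _ => rfl
  refine Nat.card_le_card_of_injective G ?_
  intro φ φ' h
  apply Subtype.ext
  apply hinj
  refine AlgHom.ext fun a => ?_
  rw [← hG, ← hG, h]

end

theorem num : S_Num := by
  classical
  intro K F N _ _ _ _ _ _ _ _ _ v P hP hc hne hinj
  have hfirst : ∀ φ : F →ₐ[K] N, ∃ w : HeightOneSpectrum (𝓞 F), below P φ = w.asIdeal ∧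
      w.asIdeal.comap (algebraMap (𝓞 K) (𝓞 F)) = v.asIdeal := by
    intro φ
    have hdom : IsDomain (𝓞 N ⧸ P) := Ideal.Quotient.isDomain P
    have hcm := below_comap K F N v P hc φ
    have hpr : (below P φ).IsPrime := RingHom.ker_isPrime _
    refine ⟨⟨below P φ, hpr, ?_⟩, rfl, hcm⟩
    intro h0
    rw [h0] at hcm
    apply v.ne_bot
    rw [← hcm, ← RingHom.ker_eq_comap_bot]
    exact (RingHom.injective_iff_ker_eq_bot _).1 (FaithfulSMul.algebraMap_injective _ _)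
  refine ⟨hfirst, ?_⟩
  set p : Ideal (𝓞 K) := v.asIdeal with hp
  have hpm : p.IsMaximal := v.isMaximal
  have hp0 : p ≠ ⊥ := v.ne_bot
  have hfin : (p.primesOver (𝓞 F)).Finite := IsDedekindDomain.primesOver_finite p (𝓞 F)
  have hcomp : ∀ w : HeightOneSpectrum (𝓞 F), w.asIdeal.comap (algebraMap (𝓞 K) (𝓞 F)) = p →
      w.asIdeal ∈ p.primesOver (𝓞 F) := fun w hw => ⟨w.isPrime, ⟨hw.symm⟩⟩
  let mk : p.primesOver (𝓞 F) → HeightOneSpectrum (𝓞 F) := fun q =>
    ⟨q.1, q.2.1, by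
      have := q.2.2
      exact Ideal.ne_bot_of_liesOver_of_ne_bot hp0 q.1⟩
  have hmk : ∀ q : p.primesOver (𝓞 F), (mk q).asIdeal.comap (algebraMap (𝓞 K) (𝓞 F)) = p :=
    fun q => q.2.2.over.symm
  have hfin' : Finite (p.primesOver (𝓞 F)) := hfin
  have hsum := Ideal.sum_ramification_inertia_eq_finrank p (𝓞 F)
  rw [← IsFractionRing.finrank_eq (𝓞 K) K (𝓞 F) F] at hsum
  have hnm : ∀ q : p.primesOver (𝓞 F), nm (mk q) = nm v ^ (q.1.inertiaDeg (𝓞 K)) := by
    intro q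
    have := q.2.1
    have := q.2.2
    exact (Ideal.absNorm_pow_inertiaDeg p q.1).symm
  have hpos : ∀ q : p.primesOver (𝓞 F), 1 ≤ q.1.ramificationIdx (𝓞 K) ∧
      1 ≤ q.1.inertiaDeg (𝓞 K) := by
    intro q
    have := q.2.1
    exact ⟨Ideal.ramificationIdx_pos q.1 (𝓞 K), Ideal.inertiaDeg_pos q.1 (𝓞 K)⟩
  have hle : ∀ q : p.primesOver (𝓞 F),
      Nat.card {φ : F →ₐ[K] N // below P φ = q.1} ≤ q.1.inertiaDeg (𝓞 K) := fun q =>
    card_le K F N v P hP hc hinj (mk q) (hmk q) _ (hnm q)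
  let cls : (F →ₐ[K] N) → p.primesOver (𝓞 F) := fun φ =>
    ⟨below P φ, by
      obtain ⟨w, h1, h2⟩ := hfirst φ
      rw [h1]
      exact hcomp w h2⟩
  have hcls : ∀ q : p.primesOver (𝓞 F),
      Nat.card {φ : F →ₐ[K] N // below P φ = q.1} =
        (Finset.univ.filter fun φ : F →ₐ[K] N => cls φ = q).card := by
    intro q
    rw [← Fintype.card_subtype, ← Nat.card_eq_fintype_card]
    exact Nat.card_congr (Equiv.subtypeEquivRight fun φ =>
      ⟨fun h => Subtype.ext h, fun h => congrArg Subtype.val h⟩)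
  have hall : ∑ q : p.primesOver (𝓞 F), Nat.card {φ : F →ₐ[K] N // below P φ = q.1} =
      Module.finrank K F := by
    rw [← card_emb K F N hne, ← Finset.card_univ (α := F →ₐ[K] N),
      Finset.card_eq_sum_card_fiberwise (f := cls) (t := Finset.univ)
      (fun _ _ => Finset.mem_univ _)]
    exact Finset.sum_congr rfl fun q _ => hcls q
  have hle2 : ∀ q ∈ (Finset.univ : Finset (p.primesOver (𝓞 F))),
      Nat.card {φ : F →ₐ[K] N // below P φ = q.1} ≤
        q.1.ramificationIdx (𝓞 K) * q.1.inertiaDeg (𝓞 K) := fun q _ =>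
    (hle q).trans (Nat.le_mul_of_pos_left _ (hpos q).1)
  have heq := (Finset.sum_eq_sum_iff_of_le hle2).1 (hall.trans hsum.symm)
  intro w hw
  set q : p.primesOver (𝓞 F) := ⟨w.asIdeal, hcomp w hw⟩ with hq
  have e1 : w = mk q := rfl
  refine ⟨q.1.inertiaDeg (𝓞 K), (hpos q).2, ?_, ?_⟩
  · rw [e1]
    exact hnm q
  · have h1 := heq q (Finset.mem_univ _)
    have h2 := hle q
    have h3 : q.1.inertiaDeg (𝓞 K) ≤ q.1.ramificationIdx (𝓞 K) * q.1.inertiaDeg (𝓞 K) :=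
      Nat.le_mul_of_pos_left _ (hpos q).1
    show Nat.card {φ : F →ₐ[K] N // below P φ = q.1} = _
    omega

end MP7ed9c3.Zg
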