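import Pool.Agent.Lib.MP_7ed9c3_nt.Zg.Spec

/-!
# MP_7ed9c3_nt, part Zg: the period of an embedding under Frobenius
-/

set_option autoImplicit false

namespace MP7ed9c3.Zg

open NumberField IsDedekindDomain Filter Topology MP7ed9c3.Tw MP7ed9c3.Ext

/-- the automorphism `z ↦ z ^ (q ^ j)` of a field with `q ^ f` elements -/
theorem Per_dvd {k : Type} [Field k] [Finite k] {q f : ℕ} (hq : 2 ≤ q) (hf : 1 ≤ f)
    (hc : Nat.card k = q ^ f) (j : ℕ) : (∀ z : k, z ^ (q ^ j) = z) ↔ f ∣ j := by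
  have : Fintype k := Fintype.ofFinite k
  have hc' : Fintype.card k = q ^ f := by rw [← hc, Nat.card_eq_fintype_card]
  have hm : ∀ (m : ℕ) (z : k), z ^ (q ^ (f * m)) = z := by
    intro m z
    rw [pow_mul, ← hc']
    exact FiniteField.pow_card_pow m z
  constructor
  · intro h
    have hj : f * (j / f) + j % f = j := Nat.div_add_mod j f
    have hr : ∀ z : k, z ^ (q ^ (j % f)) = z := by
      intro z
      have h1 := h z
      rw [← hj, pow_add, pow_mul, hm] at h1
      exact h1
    by_contra hnd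
    have hr1 : 1 ≤ j % f := by
      rcases Nat.eq_zero_or_pos (j % f) with h0 | h0
      · exact absurd (Nat.dvd_of_mod_eq_zero h0) hnd
      · exact h0
    have hrf : j % f < f := Nat.mod_lt _ (by omega)
    have hq1 : 1 < q ^ (j % f) := Nat.one_lt_pow (by omega) (by omega)
    have hlt : q ^ (j % f) < q ^ f := Nat.pow_lt_pow_right (by omega) hrf
    have hne : (Polynomial.X ^ (q ^ (j % f)) - Polynomial.X : Polynomial k) ≠ 0 :=
      FiniteField.X_pow_card_sub_X_ne_zero k hq1
    apply hne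
    refine Polynomial.eq_zero_of_natDegree_lt_card_of_eval_eq_zero' _ Finset.univ ?_ ?_
    · intro z _
      rw [Polynomial.eval_sub, Polynomial.eval_pow, Polynomial.eval_X, hr, sub_self]
    · rw [FiniteField.X_pow_card_sub_X_natDegree_eq k hq1, Finset.card_univ, hc']
      exact hlt
  · rintro ⟨m, rfl⟩ z
    exact hm m z

theorem per : S_Per := by
  intro K F N _ _ _ _ _ _ _ _ v P g hP hinj φ w f hf hw hbelow j
  obtain ⟨hPp, hcomap, hfrob⟩ := hP
  have hdom : IsDomain (𝓞 N ⧸ P) := Ideal.Quotient.isDomain P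
  have hwmax : w.asIdeal.IsMaximal := w.isMaximal
  let _ : Field (𝓞 F ⧸ w.asIdeal) := Ideal.Quotient.field w.asIdeal
  have hcard : Nat.card (𝓞 F ⧸ w.asIdeal) = nm w := rfl
  have hq : 2 ≤ nm v := by
    have : 1 < Ideal.absNorm v.asIdeal := HeightOneSpectrum.one_lt_absNorm v
    exact this
  have hfin : Finite (𝓞 F ⧸ w.asIdeal) := by
    refine Nat.finite_of_card_ne_zero ?_
    rw [hcard]
    have : 1 < Ideal.absNorm w.asIdeal := HeightOneSpectrum.one_lt_absNorm w
    have h2 : 1 < nm w := this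
    omega
  -- the embedding of the residue field
  have hker : ∀ a : 𝓞 F, a ∈ w.asIdeal → (redHom K F N P φ : 𝓞 F →+* (𝓞 N ⧸ P)) a = 0 := by
    intro a ha
    rw [← hbelow] at ha
    exact ha
  let i : (𝓞 F ⧸ w.asIdeal) →+* (𝓞 N ⧸ P) :=
    Ideal.Quotient.lift w.asIdeal (redHom K F N P φ : 𝓞 F →+* (𝓞 N ⧸ P)) hker
  have hi : Function.Injective i := i.injective
  have hia : ∀ a : 𝓞 F, i (Ideal.Quotient.mk w.asIdeal a) = redHom K F N P φ a := by
    intro a
    rfl
  -- reduction of the composition with a power of Frobenius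
  have hred : ∀ (ψ : F →ₐ[K] N) (a : 𝓞 F),
      redHom K F N P ((g : N →ₐ[K] N).comp ψ) a = (redHom K F N P ψ a) ^ nm v := by
    intro ψ a
    show Ideal.Quotient.mk P (RingOfIntegers.mapAlgHom ((g : N →ₐ[K] N).comp ψ) a) =
      (Ideal.Quotient.mk P (RingOfIntegers.mapAlgHom ψ a)) ^ nm v
    rw [← map_pow, Ideal.Quotient.eq]
    exact hfrob (RingOfIntegers.mapAlgHom ψ a)
  have hpow : ∀ (l : ℕ) (a : 𝓞 F),
      redHom K F N P (((g ^ l : N ≃ₐ[K] N) : N →ₐ[K] N).comp φ) a =
        (redHom K F N P φ a) ^ (nm v ^ l) := by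
    intro l
    induction l with
    | zero =>
      intro a
      rw [pow_zero, pow_zero, pow_one]
      rfl
    | succ l ih =>
      intro a
      have h1 : (((g ^ (l + 1) : N ≃ₐ[K] N) : N →ₐ[K] N).comp φ) =
          (g : N →ₐ[K] N).comp (((g ^ l : N ≃ₐ[K] N) : N →ₐ[K] N).comp φ) := by
        rw [pow_succ']
        rfl
      rw [h1, hred, ih, ← pow_mul, ← pow_succ]
  rw [← Per_dvd hq hf (hcard.trans hw) j]
  constructor
  · intro h z
    obtain ⟨a, rfl⟩ := Ideal.Quotient.mk_surjective z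
    apply hi
    rw [map_pow, hia, ← hpow, h]
  · intro h
    apply hinj
    refine AlgHom.ext (fun a => ?_)
    rw [hpow, ← hia, ← map_pow, h]

end MP7ed9c3.Zg
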