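import Pool.Agent.Lib.MP_7ed9c3_nt.Zg.Spec

/-!
# MP_7ed9c3_nt, Zg: PsumE, power sums as sums of cosines
-/

set_option autoImplicit false

namespace MP7ed9c3.Zg

open NumberField IsDedekindDomain Filter Topology MP7ed9c3.Tw MP7ed9c3.Ext

private lemma PsumE_pow (a : ℂ) (l : ℕ) :
    a ^ l + (starRingEnd ℂ a) ^ l = ((2 * (‖a‖ ^ l * Real.cos (l * Complex.arg a)) : ℝ) : ℂ) := by
  have h1 : a ^ l + (starRingEnd ℂ a) ^ l = ((2 * (a ^ l).re : ℝ) : ℂ) := by
    rw [← map_pow, Complex.add_conj]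
  have h2 : a ^ l = ((‖a‖ ^ l : ℝ) : ℂ) * Complex.exp (((l * Complex.arg a : ℝ) : ℂ) * Complex.I) := by
    conv_lhs => rw [← Complex.norm_mul_exp_arg_mul_I a]
    rw [mul_pow, ← Complex.exp_nat_mul]
    push_cast
    ring_nf
  have h3 : (a ^ l).re = ‖a‖ ^ l * Real.cos (l * Complex.arg a) := by
    rw [h2, Complex.re_ofReal_mul, Complex.exp_ofReal_mul_I_re]
  rw [h1, h3]

private lemma PsumE_conj (a b : ℂ) (r : ℝ) (hr : 0 < r) (ha : ‖a‖ = √r) (hab : a * b = (r : ℂ)) :
    b = starRingEnd ℂ a := by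
  have ha0 : a ≠ 0 := by
    intro h
    rw [h, norm_zero] at ha
    exact (Real.sqrt_pos.2 hr).ne ha
  have h1 : a * starRingEnd ℂ a = (r : ℂ) := by
    rw [Complex.mul_conj, Complex.normSq_eq_norm_sq, ha, Real.sq_sqrt hr.le]
  exact mul_left_cancel₀ ha0 (hab.trans h1.symm)

open Classical in
theorem psumE : S_PsumE := by
  intro J Y _ s f α β p π w hp hs hw hwπ hcard hfix
  refine ⟨fun y => Complex.arg (α (w y)) / f (w y), fun y => by simp only [hwπ y], fun k => ?_⟩
  set g : J → ℝ := fun j => if f j ∣ k then Real.cos (k * (Complex.arg (α j) / f j)) else 0 with hg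
  have hc : csum π (fun y => Complex.arg (α (w y)) / f (w y)) k = ∑ j ∈ s, (f j : ℝ) * g j := by
    unfold csum
    have h1 : ∀ y : Y, (if (π ^ k) y = y then
        Real.cos (k * (Complex.arg (α (w y)) / f (w y))) else 0) = g (w y) := by
      intro y
      simp only [hg, hfix y k]
    rw [Finset.sum_congr rfl (fun y _ => h1 y),
      ← Finset.sum_fiberwise_of_maps_to (t := s) (g := w) (fun y _ => hw y)]
    refine Finset.sum_congr rfl fun j hj => ?_
    rw [Finset.sum_congr rfl (g := fun _ => g j)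
      (fun y hy => by rw [(Finset.mem_filter.1 hy).2]), Finset.sum_const, nsmul_eq_mul]
    have h2 := hcard j hj
    rw [Nat.card_eq_fintype_card, Fintype.card_subtype] at h2
    rw [h2]
  rw [hc]
  unfold Zs.psum
  rw [Finset.mul_sum, Complex.ofReal_sum]
  refine Finset.sum_congr rfl fun j hj => ?_
  obtain ⟨hf1, hα, hαβ⟩ := hs j hj
  simp only [hg]
  split_ifs with hd
  · obtain ⟨l, hl⟩ := hd
    have hfj : (f j : ℝ) ≠ 0 := by positivity
    have hkl : k / f j = l := by
      rw [hl]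
      exact Nat.mul_div_cancel_left l hf1
    have hb : β j = starRingEnd ℂ (α j) :=
      PsumE_conj _ _ (p ^ f j) (pow_pos hp _) hα (by rw [hαβ]; push_cast; rfl)
    have hn : ‖α j‖ ^ l = √(p ^ k) := by
      rw [hα, hl, pow_mul, ← Real.sqrt_sq (pow_nonneg (Real.sqrt_nonneg (p ^ f j)) l), ← pow_mul,
        mul_comm l 2, pow_mul, Real.sq_sqrt (pow_nonneg hp.le _)]
    have harg : (k : ℝ) * (Complex.arg (α j) / f j) = l * Complex.arg (α j) := by
      rw [hl]
      push_cast
      field_simp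
    rw [hkl, hb, PsumE_pow, hn, harg]
    push_cast
    ring
  · simp

end MP7ed9c3.Zg
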