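import Pool.Agent.Lib.MP_7ed9c3_nt.Zg.Spec

/-!
# MP_7ed9c3_nt, package Zg: the primes of the integers
-/

set_option autoImplicit false

namespace MP7ed9c3.Zg

open NumberField IsDedekindDomain Filter Topology MP7ed9c3.Tw MP7ed9c3.Ext

theorem RatP_key (v : HeightOneSpectrum (𝓞 ℚ)) :
    ∃ p : ℕ, p.Prime ∧ Ideal.absNorm v.asIdeal = p ∧ v.asIdeal = Ideal.span {(p : 𝓞 ℚ)} := by
  have : IsPrincipalIdealRing (𝓞 ℚ) :=
    IsPrincipalIdealRing.of_surjective (Rat.ringOfIntegersEquiv.symm : ℤ ≃+* 𝓞 ℚ)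
      (Rat.ringOfIntegersEquiv.symm).surjective
  obtain ⟨x, hx⟩ := (IsPrincipalIdealRing.principal v.asIdeal).principal
  have hx' : v.asIdeal = Ideal.span {x} := hx
  obtain ⟨n, hn⟩ : ∃ n : ℤ, (n : 𝓞 ℚ) = x :=
    ⟨Rat.ringOfIntegersEquiv x, by
      apply Rat.ringOfIntegersEquiv.injective
      rw [map_intCast]
      rfl⟩
  subst hn
  have h0 : ((n : ℤ) : 𝓞 ℚ) ≠ 0 := by
    intro h
    apply v.ne_bot
    rw [hx', h, Ideal.span_singleton_eq_bot]
  have hp : Prime ((n : ℤ) : 𝓞 ℚ) := by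
    rw [← Ideal.span_singleton_prime h0, ← hx']
    exact v.isPrime
  have hn : Prime n := by
    have h := (MulEquiv.prime_iff Rat.ringOfIntegersEquiv.toMulEquiv).2 hp
    have h2 : Rat.ringOfIntegersEquiv.toMulEquiv ((n : ℤ) : 𝓞 ℚ) = n := by
      change Rat.ringOfIntegersEquiv ((n : ℤ) : 𝓞 ℚ) = n
      rw [map_intCast]
      rfl
    rw [h2] at h
    exact h
  refine ⟨n.natAbs, Int.prime_iff_natAbs_prime.1 hn, ?_, ?_⟩
  · rw [hx', Ideal.absNorm_span_singleton]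
    have h1 : ((n : ℤ) : 𝓞 ℚ) = algebraMap ℤ (𝓞 ℚ) n := rfl
    rw [h1, Algebra.norm_algebraMap, RingOfIntegers.rank, Module.finrank_self, pow_one]
  · rw [hx']
    rcases Int.natAbs_eq n with h | h
    · have h2 : ((n : ℤ) : 𝓞 ℚ) = (n.natAbs : 𝓞 ℚ) := by
        conv_lhs => rw [h]
        simp
      rw [h2]
    · have h2 : ((n : ℤ) : 𝓞 ℚ) = -(n.natAbs : 𝓞 ℚ) := by
        conv_lhs => rw [h]
        simp
      rw [h2, Ideal.span_singleton_neg]

theorem ratP : S_RatP := by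
  refine ⟨fun v => ?_, fun v v' h => ?_, fun K _ _ w v i h => ?_⟩
  · obtain ⟨p, hp, h1, -⟩ := RatP_key v
    change (Ideal.absNorm v.asIdeal).Prime
    rw [h1]
    exact hp
  · obtain ⟨p, hp, h1, h2⟩ := RatP_key v
    obtain ⟨p', hp', h1', h2'⟩ := RatP_key v'
    have h3 : Ideal.absNorm v.asIdeal = Ideal.absNorm v'.asIdeal := h
    rw [h1, h1'] at h3
    apply HeightOneSpectrum.ext
    rw [h2, h2', h3]
  · obtain ⟨p, hp, h1, h2⟩ := RatP_key v
    have h3 : Ideal.absNorm w.asIdeal = Ideal.absNorm v.asIdeal ^ i := h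
    rw [h1] at h3
    have h4 := Ideal.absNorm_mem w.asIdeal
    rw [h3, Nat.cast_pow] at h4
    have h5 := w.isPrime.mem_of_pow_mem i h4
    have h6 : v.asIdeal ≤ w.asIdeal.comap (algebraMap (𝓞 ℚ) (𝓞 K)) := by
      rw [h2, Ideal.span_singleton_le_iff_mem, Ideal.mem_comap, map_natCast]
      exact h5
    have := w.isPrime
    have h7 : w.asIdeal.comap (algebraMap (𝓞 ℚ) (𝓞 K)) ≠ ⊤ :=
      (Ideal.IsPrime.comap (algebraMap (𝓞 ℚ) (𝓞 K))).ne_top
    exact (v.isMaximal.eq_of_le h7 h6).symm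

end MP7ed9c3.Zg
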