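import Pool.Agent.Lib.MP_7ed9c3_nt.Zg.Spec

/-!
# MP_7ed9c3_nt, part Zg: the product of the roots
-/

set_option autoImplicit false

namespace MP7ed9c3.Zg

open NumberField IsDedekindDomain Filter Topology MP7ed9c3.Tw MP7ed9c3.Ext

private theorem RootsP_aux {g q α β a : ℂ} (hg : g = 0 ∨ g = 1)
    (h1 : 1 - a + g * q = (1 - α) * (1 - β)) (h2 : 1 + a + g * q = (1 + α) * (1 + β))
    (hne : α * β ≠ 0) : α * β = q := by
  have h3 : α * β = g * q := by linear_combination (-(1 : ℂ) / 2) * (h1 + h2)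
  rcases hg with h | h
  · rw [h, zero_mul] at h3
    exact absurd h3 hne
  · rw [h3, h, one_mul]

theorem rootsP : S_RootsP := by
  classical
  intro K _ _ M v α β h hα hβ
  have hq2 : 2 ≤ nm v := (N1.exists_prime v).1
  have hq : (nm v : ℂ) ≠ 0 := by exact_mod_cast (by omega : nm v ≠ 0)
  have hqr : (1 : ℝ) < nm v := by exact_mod_cast (by omega : 1 < nm v)
  have hlog : Real.log (nm v) ≠ 0 := (Real.log_pos hqr).ne'
  have key : ∀ s : ℂ, 1 - (tr M v : ℂ) * (nm v : ℂ) ^ (-s) +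
      (if M.Δ ∉ v.asIdeal then 1 else 0) * (nm v * ((nm v : ℂ) ^ (-s)) ^ 2) =
        (1 - α * (nm v : ℂ) ^ (-s)) * (1 - β * (nm v : ℂ) ^ (-s)) := by
    intro s
    have e1 : (nm v : ℂ) ^ (1 - 2 * s) = nm v * ((nm v : ℂ) ^ (-s)) ^ 2 := by
      rw [show (1 - 2 * s : ℂ) = 1 + (-s + -s) by ring, Complex.cpow_add _ _ hq,
        Complex.cpow_add _ _ hq, Complex.cpow_one, sq]
    have h1 := h s
    unfold locDen eden at h1
    rw [e1] at h1
    convert h1
  have z0 : (nm v : ℂ) ^ (-(0 : ℂ)) = 1 := by rw [neg_zero, Complex.cpow_zero]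
  have z1 : (nm v : ℂ) ^ (-(Complex.I * Real.pi / Real.log (nm v))) = -1 := by
    rw [Complex.cpow_def_of_ne_zero hq, ← Complex.natCast_log]
    have hl : ((Real.log (nm v) : ℝ) : ℂ) ≠ 0 := by exact_mod_cast hlog
    have : ((Real.log (nm v) : ℝ) : ℂ) * -(Complex.I * Real.pi / Real.log (nm v)) =
        -(Real.pi * Complex.I) := by
      field_simp
    rw [this, Complex.exp_neg, Complex.exp_pi_mul_I]
    norm_num
  have k0 := key 0
  have k1 := key (Complex.I * Real.pi / Real.log (nm v))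
  rw [z0] at k0
  rw [z1] at k1
  have hne : α * β ≠ 0 := by
    rw [← norm_pos_iff, norm_mul, hα, hβ]
    have : 0 < √(nm v : ℝ) := Real.sqrt_pos.mpr (by linarith)
    positivity
  refine RootsP_aux (g := if M.Δ ∉ v.asIdeal then 1 else 0) (a := (tr M v : ℂ))
    (by split_ifs <;> simp) ?_ ?_ hne
  · linear_combination k0
  · linear_combination k1

end MP7ed9c3.Zg
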