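import Pool.Agent.Lib.MP_7ed9c3_nt.Zg.Spec

/-!
# MP_7ed9c3_nt, part Zg, TransB: the means of the permutation characters with bounded error
-/

set_option autoImplicit false

namespace MP7ed9c3.Zg

open NumberField IsDedekindDomain Filter Topology MP7ed9c3.Tw MP7ed9c3.Ext

private theorem TransB_finite_mem {K : Type} [Field K] [NumberField K] {x : 𝓞 K} (hx : x ≠ 0) :
    {v : HeightOneSpectrum (𝓞 K) | x ∈ v.asIdeal}.Finite := by
  have h0 : Ideal.span {x} ≠ 0 := by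
    intro h
    exact hx (Ideal.span_singleton_eq_bot.mp h)
  refine (Ideal.finite_factors h0).subset ?_
  intro v hv
  simp only [Set.mem_ofPred_eq] at hv ⊢
  rw [Ideal.dvd_span_singleton]
  exact hv

private theorem TransB_two_le {K : Type} [Field K] [NumberField K]
    (v : HeightOneSpectrum (𝓞 K)) : 2 ≤ nm v := by
  have : 1 < Ideal.absNorm v.asIdeal := HeightOneSpectrum.one_lt_absNorm v
  exact this

private theorem TransB_primeSum (K : Type) [Field K] [NumberField K] (x : ℝ) :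
    primeSum K x 0 = Qs (fun v : HeightOneSpectrum (𝓞 K) => nm v) x (fun _ => 1) := by
  unfold primeSum Qs
  refine tsum_congr fun v => ?_
  rw [zero_mul, Real.cos_zero, mul_comm]
  rfl

private theorem TransB_summable (h5 : S_ZetaSum) {K : Type} [Field K] [NumberField K]
    (g : HeightOneSpectrum (𝓞 K) → ℝ) (A : ℝ) (hg : ∀ v, |g v| ≤ A) (x : ℝ) (hx : 0 < x) :
    Summable fun v : HeightOneSpectrum (𝓞 K) => g v * (nm v : ℝ) ^ (-(1 + x)) := by
  have h := ((h5 K).2.1 (1 + x) (by linarith)).mul_left A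
  refine Summable.of_norm_bounded h fun v => ?_
  have h0 : 0 ≤ (nm v : ℝ) ^ (-(1 + x)) := Real.rpow_nonneg (Nat.cast_nonneg _) _
  rw [Real.norm_eq_abs, abs_mul, abs_of_nonneg h0]
  exact mul_le_mul_of_nonneg_right (hg v) h0

private theorem TransB_diff (h5 : S_ZetaSum) {K : Type} [Field K] [NumberField K]
    (f g : HeightOneSpectrum (𝓞 K) → ℝ) (A B : ℝ) (hf : ∀ v, |f v| ≤ A) (hg : ∀ v, |g v| ≤ B)
    (S : Set (HeightOneSpectrum (𝓞 K))) (hS : S.Finite) (h : ∀ v ∉ S, f v = g v) (x : ℝ)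
    (hx : 0 < x) :
    |Qs (fun v : HeightOneSpectrum (𝓞 K) => nm v) x f -
      Qs (fun v : HeightOneSpectrum (𝓞 K) => nm v) x g| ≤ ∑ v ∈ hS.toFinset, |f v - g v| := by
  unfold Qs
  rw [← Summable.tsum_sub (TransB_summable h5 f A hf x hx) (TransB_summable h5 g B hg x hx),
    tsum_eq_sum (s := hS.toFinset)]
  · refine (Finset.abs_sum_le_sum_abs _ _).trans (Finset.sum_le_sum fun v _ => ?_)
    have h0 : 0 ≤ (nm v : ℝ) ^ (-(1 + x)) := Real.rpow_nonneg (Nat.cast_nonneg _) _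
    have h1 : (nm v : ℝ) ^ (-(1 + x)) ≤ 1 := by
      refine Real.rpow_le_one_of_one_le_of_nonpos ?_ (by linarith)
      have := TransB_two_le v
      exact_mod_cast (by omega : 1 ≤ nm v)
    rw [← sub_mul, abs_mul, abs_of_nonneg h0]
    exact mul_le_of_le_one_right (abs_nonneg _) h1
  · intro v hv
    rw [h v (fun hv' => hv (hS.mem_toFinset.2 hv')), sub_self]

private theorem TransB_deg1_le (hFib : S_Fib) (K F : Type) [Field K] [NumberField K] [Field F]
    [NumberField F] [Algebra K F] (v : HeightOneSpectrum (𝓞 K)) :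
    deg1 K F v ≤ Module.finrank K F := by
  obtain ⟨hfin, hcard, -⟩ := hFib K F v
  refine le_trans ?_ hcard
  unfold deg1
  have h1 : Nat.card {w : HeightOneSpectrum (𝓞 F) //
      w.asIdeal.comap (algebraMap (𝓞 K) (𝓞 F)) = v.asIdeal ∧ nm w = nm v} =
      {w : HeightOneSpectrum (𝓞 F) |
        w.asIdeal.comap (algebraMap (𝓞 K) (𝓞 F)) = v.asIdeal ∧ nm w = nm v}.ncard := rfl
  rw [h1]
  exact Set.ncard_le_ncard (fun w hw => hw.1) hfin

theorem transB (h1 : S_DegF) (h2 : S_FixF) (h3 : S_Reg) (h4 : S_Fib) (h5 : S_ZetaSum)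
    (h6 : S_ZetaCosK) : S_TransB := by
  intro K N _ _ _ _ _ _ σ hσ
  refine ⟨⟨fun v => TransB_two_le v, fun s hs => (h5 K).2.1 s hs, ?_⟩, fun H => ?_⟩
  · obtain ⟨C, hC⟩ := (h6 K).1
    refine ⟨C, fun x hx hx1 => ?_⟩
    have h := hC x hx hx1
    rw [TransB_primeSum] at h
    rw [one_mul]
    exact h
  · obtain ⟨F, iF, iNF, iA, hne, hfix⟩ := h2 K N H
    obtain ⟨D, hD, hDF⟩ := h1 K F N hne
    have hS := TransB_finite_mem hD
    obtain ⟨C, hC⟩ := h3 K F ∅ 1 Set.finite_empty zero_le_one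
    obtain ⟨C', hC'⟩ := (h6 F).1
    have hA : ∀ v : HeightOneSpectrum (𝓞 K), |(deg1 K F v : ℝ)| ≤ Module.finrank K F := by
      intro v
      rw [Nat.abs_cast]
      exact_mod_cast TransB_deg1_le h4 K F v
    have hB : ∀ v : HeightOneSpectrum (𝓞 K),
        |fx ((N ≃ₐ[K] N) ⧸ H) (σ v)| ≤ Nat.card ((N ≃ₐ[K] N) ⧸ H) := by
      intro v
      unfold fx
      rw [Nat.abs_cast]
      exact_mod_cast Nat.card_le_card_of_injective _ Subtype.val_injective
    have heq : ∀ v ∉ {v : HeightOneSpectrum (𝓞 K) | D ∈ v.asIdeal},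
        (deg1 K F v : ℝ) = fx ((N ≃ₐ[K] N) ⧸ H) (σ v) := by
      intro v hv
      obtain ⟨P, hP⟩ := hσ v
      have h := hDF v P (σ v) hP hv
      rw [hfix (σ v)] at h
      unfold fx
      rw [h]
    refine ⟨C + C' + ∑ v ∈ hS.toFinset, |(deg1 K F v : ℝ) - fx ((N ≃ₐ[K] N) ⧸ H) (σ v)|,
      fun x hx hx1 => ?_⟩
    have e1 := TransB_diff h5 (fun v => (deg1 K F v : ℝ))
      (fun v => fx ((N ≃ₐ[K] N) ⧸ H) (σ v)) _ _ hA hB _ hS heq x hx
    have e2 := hC (fun _ => 1) (fun _ => 1) (fun _ => by rw [abs_one]) (fun _ => by rw [abs_one])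
      (fun _ _ _ _ _ => rfl) x hx hx1
    have e3 := hC' x hx hx1
    rw [TransB_primeSum] at e3
    have e4 : (fun v : HeightOneSpectrum (𝓞 K) => (deg1 K F v : ℝ) * 1) =
        fun v => (deg1 K F v : ℝ) := by
      funext v
      rw [mul_one]
    rw [e4] at e2
    rw [one_mul]
    rw [abs_le] at e1 e2 e3 ⊢
    constructor
    · linarith [e1.1, e1.2, e2.1, e2.2, e3.1, e3.2]
    · linarith [e1.1, e1.2, e2.1, e2.2, e3.1, e3.2]

end MP7ed9c3.Zg
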