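import Pool.Agent.Lib.MP_7ed9c3_nt.Ext.All
import Pool.Agent.Lib.MP_7ed9c3_nt.Zs.All
import Pool.Agent.Lib.MP_7ed9c3_nt.Zg.AdmTwo
import Pool.Agent.Lib.MP_7ed9c3_nt.Zg.AdmC
import Pool.Agent.Lib.MP_7ed9c3_nt.Zg.AdmConj
import Pool.Agent.Lib.MP_7ed9c3_nt.Zg.Ind
import Pool.Agent.Lib.MP_7ed9c3_nt.Zg.ClassB
import Pool.Agent.Lib.MP_7ed9c3_nt.Zg.Mid
import Pool.Agent.Lib.MP_7ed9c3_nt.Zg.Dyad
import Pool.Agent.Lib.MP_7ed9c3_nt.Zg.DegF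
import Pool.Agent.Lib.MP_7ed9c3_nt.Zg.TransB
import Pool.Agent.Lib.MP_7ed9c3_nt.Zg.Per
import Pool.Agent.Lib.MP_7ed9c3_nt.Zg.Num
import Pool.Agent.Lib.MP_7ed9c3_nt.Zg.RatP
import Pool.Agent.Lib.MP_7ed9c3_nt.Zg.PsumE
import Pool.Agent.Lib.MP_7ed9c3_nt.Zg.RootsP
import Pool.Agent.Lib.MP_7ed9c3_nt.Zg.Loc
import Pool.Agent.Lib.MP_7ed9c3_nt.Zg.Many
import Pool.Agent.Lib.MP_7ed9c3_nt.Zg.Lower
import Pool.Agent.Lib.MP_7ed9c3_nt.Zg.Box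
import Pool.Agent.Lib.MP_7ed9c3_nt.Zg.Fin

/-!
# MP_7ed9c3_nt: assembly of part Zg
-/

set_option autoImplicit false

namespace MP7ed9c3.Zg

open NumberField IsDedekindDomain Filter Topology MP7ed9c3.Tw MP7ed9c3.Ext

theorem transBAll : S_TransB :=
  transB (degF homs (bij prim) cnt) fixF regAll fib zetaSum zetaCosKAll

theorem locAll : S_Loc := loc per num (bij prim) ratP psumE admC admConj Zs.overz Zs.coefz

theorem manyAll : S_Many := many locAll frob transBAll (classB ind) mid dyad ratP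

theorem finAll : S_Fin :=
  fin manyAll lower (box (Zs.corez Zs.linez Zs.rectz Zs.dualz) Zs.logballz) rootsP Zs.rootsz
    Zs.seriesz

end MP7ed9c3.Zg
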