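import Pool.Agent.Lib.MP_7ed9c3_nt.Zg.Spec
import Pool.Agent.Lib.MP_7ed9c3_nt.Zs.Box

/-!
# MP_7ed9c3_nt, Zg: zeros in a box
-/

set_option autoImplicit false

namespace MP7ed9c3.Zg

open NumberField IsDedekindDomain Filter Topology MP7ed9c3.Tw MP7ed9c3.Ext

/-- The size of the parameters. -/
theorem Box_param {η δ V B P : ℝ} {k : ℕ} (hη : 0 < η) (hδ : 0 < δ) (hV1 : 1 ≤ V)
    (hB : 1 ≤ B) (hP0 : 0 ≤ P) (hP : P ≤ (V ^ (3 / η)) ^ B) (hV : 4 + 16 / δ ≤ V) :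
    4 + ((P ^ k) ^ 3 + 3) ^ 2 / δ ≤ V ^ (18 * k * B / η + 1) := by
  have hV0 : 0 < V := by linarith
  have hB0 : 0 < B := by linarith
  set W : ℝ := V ^ (9 * k * B / η) with hW
  have hW1 : 1 ≤ W := Real.one_le_rpow hV1 (by positivity)
  have h1 : (P ^ k) ^ 3 ≤ W := by
    calc (P ^ k) ^ 3 ≤ (((V ^ (3 / η)) ^ B) ^ k) ^ 3 :=
          pow_le_pow_left₀ (by positivity) (pow_le_pow_left₀ hP0 hP _) _
      _ = W := by
          rw [hW, ← pow_mul, ← Real.rpow_natCast, ← Real.rpow_mul hV0.le,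
            ← Real.rpow_mul hV0.le]
          congr 1
          push_cast
          ring
  have h2 : ((P ^ k) ^ 3 + 3) ^ 2 ≤ (4 * W) ^ 2 :=
    pow_le_pow_left₀ (by positivity) (by linarith) 2
  have hWW : W ^ 2 = V ^ (18 * k * B / η) := by
    rw [hW, ← Real.rpow_natCast, ← Real.rpow_mul hV0.le]
    congr 1
    push_cast
    ring
  have h5 : V ^ (18 * k * B / η + 1) = V * W ^ 2 := by
    rw [Real.rpow_add hV0, Real.rpow_one, mul_comm, hWW]
  rw [h5]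
  have h6 : (4 + 16 / δ) * W ^ 2 ≤ V * W ^ 2 :=
    mul_le_mul_of_nonneg_right hV (by positivity)
  have h7 : ((P ^ k) ^ 3 + 3) ^ 2 / δ ≤ 16 / δ * W ^ 2 := by
    rw [div_mul_eq_mul_div]
    refine div_le_div_of_nonneg_right ?_ hδ.le
    linarith [h2, (by ring : (4 * W) ^ 2 = 16 * W ^ 2)]
  have h8 : 1 ≤ W ^ 2 := one_le_pow₀ hW1
  nlinarith

theorem box (h1 : Zs.S_Core) (h2 : Zs.S_LogBall) : S_Box := by
  intro K _ _ M α β k b hsum hexp hb1 hb2 hlow σ₁ hσ₁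
  obtain ⟨K₄, hK₄, h4⟩ := h1
  set a : ℝ := max σ₁ (1 / 2) with ha
  have hab : a < b := max_lt hσ₁ hb1
  have ha1 : 1 / 2 ≤ a := le_max_right _ _
  have haσ : σ₁ ≤ a := le_max_left _ _
  set x' : ℝ := (2 * a + b) / 3 with hx'
  set x : ℝ := (a + 2 * b) / 3 with hx
  have hax' : a < x' := by rw [hx']; linarith
  have hx'x : x' < x := by rw [hx', hx]; linarith
  have hxb : x < b := by rw [hx]; linarith
  have hx12 : 1 / 2 < x := by linarith
  obtain ⟨η, B₀, Y₀, hη, hB₀, hlow⟩ := hlow x hx12 hxb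
  set B : ℝ := ∑' i, ‖Zs.tauE α β i‖ / (Zs.lamE K i : ℝ) ^ 3 with hB
  have hB0 : 0 ≤ B := tsum_nonneg fun i => by positivity
  set C₁ : ℝ := 2 * B + 6 * (B + 2) / (x - x') with hC₁
  have hxx : 0 < x - x' := by linarith
  have hδ : 0 < x' - a := by linarith
  have hC₁0 : 0 ≤ C₁ := by positivity
  refine ⟨18 * k * B₀ / η + 1, 1 + |Y₀| ^ (η / 3) + (4 + 16 / (x' - a)) +
    (K₄ * C₁) ^ 2, ?_⟩
  intro V t₀ hV F hFd hFb hFp
  have hp1 : 0 ≤ |Y₀| ^ (η / 3) := by positivity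
  have hp2 : 0 ≤ 4 + 16 / (x' - a) := by positivity
  have hp3 : 0 ≤ (K₄ * C₁) ^ 2 := by positivity
  have hV1 : 1 ≤ V := by linarith
  have hV0 : 0 < V := by linarith
  by_contra hcon
  push Not at hcon
  have hPP₀ : Y₀ ≤ V ^ (3 / η) := by
    have h2 : (|Y₀| ^ (η / 3)) ^ (3 / η) ≤ V ^ (3 / η) :=
      Real.rpow_le_rpow hp1 (by linarith) (by positivity)
    rw [← Real.rpow_mul (by positivity)] at h2
    have h3 : η / 3 * (3 / η) = 1 := by field_simp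
    rw [h3, Real.rpow_one] at h2
    exact (le_abs_self _).trans h2
  obtain ⟨P, S, hPV, hPV', hS, hSsum⟩ := hlow _ hPP₀
  set N : ℕ := P ^ k with hN
  set U : ℝ := (N : ℝ) ^ 3 with hU
  have hU0 : 0 ≤ U := by positivity
  set X' : ℝ := 4 + (U + 3) ^ 2 / (x' - a) with hX'
  have hX'V : X' ≤ V ^ (18 * k * B₀ / η + 1) := by
    have h3 := Box_param (k := k) hη hδ hV1 hB₀ (Nat.cast_nonneg P) hPV' (by linarith)
    rw [hX', hU, hN]
    push_cast
    exact h3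
  have hbox : ∀ z ∈ Metric.ball ((X' : ℂ) + t₀ * Complex.I) (X' - a),
      σ₁ < z.re ∧ |z.im - t₀| < V ^ (18 * k * B₀ / η + 1) := by
    intro z hz
    obtain ⟨h1, h2⟩ := Zs.ball_box hz
    exact ⟨by linarith, by linarith⟩
  have hballs : ∀ t : ℝ, |t - t₀| ≤ U →
      Metric.ball (3 + t * Complex.I) (3 - x') ⊆
        Metric.ball ((X' : ℂ) + t₀ * Complex.I) (X' - a) := fun t ht =>
    Zs.ball_sub (by linarith) hax' hU0 (by linarith) hX' ht
  have hP1 : 1 ≤ P := by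
    have h1 : (1 : ℝ) ≤ V ^ (3 / η) := Real.one_le_rpow hV1 (by positivity)
    exact_mod_cast h1.trans hPV
  have hN1 : 1 ≤ N := Nat.one_le_pow _ _ hP1
  have hline : ∀ t : ℝ, |t - t₀| ≤ U →
      F (3 + t * Complex.I) = Complex.exp (Zs.ser (Zs.lamE K) (Zs.tauE α β)
        (3 + t * Complex.I)) ∧
      ‖Zs.ser (Zs.lamE K) (Zs.tauE α β) (3 + t * Complex.I)‖ ≤ B := by
    intro t ht
    have hre : (3 + (t : ℂ) * Complex.I).re = 3 := by simp
    have hin : (3 + (t : ℂ) * Complex.I) ∈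
        Metric.ball ((X' : ℂ) + t₀ * Complex.I) (X' - a) :=
      hballs t ht (Metric.mem_ball_self (by linarith))
    refine ⟨?_, Zs.ser_bound Zs.lamE_pos hsum t⟩
    rw [hFp _ (by rw [hre]; norm_num) (hbox _ hin).2, hexp _ hre]
  obtain ⟨G, hGd, hGL, hGb⟩ := h2 F (Zs.ser (Zs.lamE K) (Zs.tauE α β))
    ((X' : ℂ) + t₀ * Complex.I) (X' - a) x x' U V B t₀ (by linarith) hx'x (by linarith) hU0 hV0.le
    (hFd.mono hbox)
    (fun z hz => hcon z (hbox z hz).1 (hbox z hz).2)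
    (fun z hz => hFb z (hbox z hz).1 (hbox z hz).2)
    hballs (Zs.ser_cont Zs.lamE_pos hsum).continuousOn hline
  have hrect : Zs.rect N x t₀ ⊆ Metric.ball ((X' : ℂ) + t₀ * Complex.I) (X' - a) :=
    fun s hs => (hGb s hs.1 hs.2.1 hs.2.2).1
  have hmain := h4 (HeightOneSpectrum (𝓞 K) × ℕ) (Zs.lamE K) (Zs.tauE α β) B Zs.lamE_pos hsum
    le_rfl G x (B + 6 * (V + B + 1) / (x - x')) t₀ N S (by linarith) (by linarith) hN1
    (hGd.mono hrect) (fun s hs => (hGb s hs.1 hs.2.1 hs.2.2).2) hGL hS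
  have hVP : V ^ 3 ≤ (P : ℝ) ^ η := by
    have h1 : (V ^ (3 / η)) ^ η ≤ (P : ℝ) ^ η :=
      Real.rpow_le_rpow (by positivity) hPV hη.le
    rw [← Real.rpow_mul hV0.le, div_mul_cancel₀ _ hη.ne'] at h1
    norm_cast at h1
  have hC : B + 6 * (V + B + 1) / (x - x') + B ≤ C₁ * V := by
    have h1 : 6 * (V + B + 1) / (x - x') ≤ 6 * (B + 2) / (x - x') * V := by
      rw [div_mul_eq_mul_div]
      refine div_le_div_of_nonneg_right ?_ hxx.le
      nlinarith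
    have h2 : 2 * B ≤ 2 * B * V := by nlinarith
    rw [hC₁, add_mul]
    linarith
  have hfin : V ^ 3 ≤ (K₄ * C₁) ^ 2 * V ^ 2 := by
    refine (hVP.trans (hSsum.trans hmain)).trans ?_
    rw [← mul_pow]
    refine pow_le_pow_left₀ (by positivity) ?_ 2
    rw [mul_assoc]
    exact mul_le_mul_of_nonneg_left hC hK₄
  have h9 : V ≤ (K₄ * C₁) ^ 2 := by
    have h10 : 0 < V ^ 2 := by positivity
    have h11 : V * V ^ 2 ≤ (K₄ * C₁) ^ 2 * V ^ 2 := by
      calc V * V ^ 2 = V ^ 3 := by ring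
        _ ≤ _ := hfin
    exact le_of_mul_le_mul_right h11 h10
  linarith

end MP7ed9c3.Zg
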