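import Pool.Agent.Lib.MP_7ed9c3_nt.Zg.Spec

/-!
# MP_7ed9c3_nt, part Zg: primes of degree one, for every choice of Frobenius elements
-/

set_option autoImplicit false

namespace MP7ed9c3.Zg

open NumberField IsDedekindDomain Filter Topology MP7ed9c3.Tw MP7ed9c3.Ext

theorem degF (hH : S_Homs) (hB : S_Bij) (hC : S_Cnt) : S_DegF := by
  intro K F N _ _ _ _ _ _ _ _ _ hne
  obtain ⟨D, hD, h⟩ := hB K F N hne
  refine ⟨D, hD, fun v P g h1 hv => ?_⟩
  have h2 : algebraMap (𝓞 K) (𝓞 N) D ∉ P := by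
    intro h3
    apply hv
    show D ∈ v.asIdeal
    rw [← h1.2.1]
    exact h3
  rw [hH K F v]
  exact hC K F N v P g h1 (h P h1.1 h2)

end MP7ed9c3.Zg
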