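import Pool.Agent.Lib.MP_7ed9c3_nt.Ext.Spec
import Pool.Agent.Lib.MP_7ed9c3_nt.Zs.Spec

/-!
# MP_7ed9c3_nt, part Zg: zeros further to the right, by splitting types (statements)

`K` a number field, `N` a finite Galois extension of `ℚ` containing `K`, `g` an automorphism of `N`; `g`
permutes the embeddings `φ : K → N`.  A natural number `k` is admissible for a permutation `π` of a
finite set `Y` if there is no `π`-invariant function `ψ : Y → ℝ` with
`∑_{y : π^j y = y} cos(j ψ(y)) = 0` for `j = 1, …, k`.  If `k` is admissible for `g` on the embeddings then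
part Zs holds for all `σ₁ < 1/2 + 1/(2k)` (in Zs: `k = 2n`).  `k = 2` is admissible if `g²` fixes exactly one
embedding; such a `g` exists for a general `K` (`σ₁ < 3/4`).

Idea: the primes `p` whose Frobenius generates a conjugate of `⟨g⟩` have
`∑ p^(-1-x) = δ log(1/x) + O(1)`, `δ > 0`, so among all scales between `Y` and `Y^M` there is a `P` with at
least `P^(1-ε)` such primes below `P`; and for each of them some `j ≤ k` has
`|coefficient of log L(E,s) at p^j| ≥ c p^(j/2)`, because this coefficient is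
`(2/j) p^(j/2) ∑_{y : π^j y = y} cos(j ψ(y))`, `ψ` from the angles of the Frobenius of `E` at the primes over `p`.

Every statement `S_Name` is a separate module `Zg/Name.lean` with `theorem name : S_Name` (first letter
small, the statements after the word from are hypotheses, in this order); the complete proof is in the
docstring.  All modules import only this file (and Mathlib); code may be copied from other files.
-/

set_option autoImplicit false

namespace MP7ed9c3.Zg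

open NumberField IsDedekindDomain Filter Topology MP7ed9c3.Tw MP7ed9c3.Ext

open Classical in
/-- The sum of `cos(k ψ(y))` over the points fixed by `π^k`. -/
noncomputable def csum {Y : Type} [Fintype Y] (π : Equiv.Perm Y) (ψ : Y → ℝ) (k : ℕ) : ℝ :=
  ∑ y : Y, if (π ^ k) y = y then Real.cos (k * ψ y) else 0

/-- `k` is admissible for the permutation `π`. -/
def Adm {Y : Type} [Fintype Y] (π : Equiv.Perm Y) (k : ℕ) : Prop :=
  ∀ ψ : Y → ℝ, (∀ y, ψ (π y) = ψ y) → ∃ j : ℕ, 1 ≤ j ∧ j ≤ k ∧ csum π ψ j ≠ 0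

/-- The permutation of the embeddings of `K` into `N` given by an automorphism of `N`. -/
noncomputable def perm {K N : Type} [Field K] [NumberField K] [Field N] [NumberField N]
    (g : N ≃ₐ[ℚ] N) : Equiv.Perm (K →ₐ[ℚ] N) where
  toFun φ := (g : N →ₐ[ℚ] N).comp φ
  invFun φ := (g.symm : N →ₐ[ℚ] N).comp φ
  left_inv φ := by ext x; simp
  right_inv φ := by ext x; simp

/-! ## A. Admissible numbers -/

/-- **AdmTwo**.

Proof.  Let `y₀` be the only fixed point of `π²`.  `π y₀` is fixed by `π²` too, so `π y₀ = y₀`, and a fixed point of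
`π` is fixed by `π²`.  So `csum π ψ 1 = cos(ψ y₀)`, `csum π ψ 2 = cos(2 ψ y₀) = 2 cos²(ψ y₀) - 1`; they are not both
`0`. -/
def S_AdmTwo : Prop :=
  ∀ (Y : Type) [Fintype Y] (π : Equiv.Perm Y), (∃! y : Y, (π ^ 2) y = y) → Adm π 2

/-- **AdmC**: compactness.

Proof.  `Adm` for `ψ = 0` gives `1 ≤ k`.  Let `Q` be the set of the `ψ : Y → ℝ` with values in `[0, 2π]` and
`ψ ∘ π = ψ`; it is compact (closed subset of `Set.pi univ (Icc 0 (2π))`) and not empty.  The function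
`Φ(ψ) = ∑_{j ∈ Icc 1 k} |csum π ψ j|` is continuous, and positive on `Q` by `Adm`, so `Φ ≥ m > 0` on `Q`
(`IsCompact.exists_isMinOn`).  For an arbitrary invariant `ψ` replace `ψ y` by
`2π fract(ψ y/(2π)) ∈ [0, 2π]`: this is invariant and has the same `csum` (`cos(j(x + 2π z)) = cos(j x)` for
an integer `z`).  So `k max_j |csum π ψ j| ≥ Φ(ψ) ≥ m`; `c = m/k`. -/
def S_AdmC : Prop :=
  ∀ (Y : Type) [Fintype Y] (π : Equiv.Perm Y) (k : ℕ), Adm π k →
    ∃ c : ℝ, 0 < c ∧ ∀ ψ : Y → ℝ, (∀ y, ψ (π y) = ψ y) →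
      ∃ j : ℕ, 1 ≤ j ∧ j ≤ k ∧ c ≤ |csum π ψ j|

/-- **AdmConj**: admissibility depends only on the conjugacy class of the cyclic group.

Proof.  Let `π' = τ π τ⁻¹`, `⟨π'⟩ = ⟨ρ⟩`.  Let `ψ` be `π`-invariant; `ψ' = ψ ∘ τ⁻¹` is `π'`-invariant, hence invariant under
all powers (also negative) of `π'`, in particular under `ρ`.  `Adm ρ k` gives `j` with `csum ρ ψ' j ≠ 0`.
For every `y`: `ρ^j y = y` iff `π'^j y = y`, because both are equivalent to: the number of points of the orbit of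
`y` under `⟨ρ⟩ = ⟨π'⟩` divides `j` (`MulAction.minimalPeriod_eq_card` or similar,
`Function.isPeriodicPt_iff_minimalPeriod_dvd`; or directly: `ρ = π'^a`, `π' = ρ^b` with integers `a`, `b`,
so `ρ^j = (π'^j)^a` fixes every fixed point of `π'^j`, and conversely).  And `π'^j (τ y) = τ y` iff `π^j y = y`.
Substituting `y = τ y'` in the sum: `csum ρ ψ' j = csum π' ψ' j = csum π ψ j`. -/
def S_AdmConj : Prop :=
  ∀ (Y : Type) [Fintype Y] (π ρ τ : Equiv.Perm Y) (k : ℕ),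
    Subgroup.zpowers (τ * π * τ⁻¹) = Subgroup.zpowers ρ → Adm ρ k → Adm π k

/-! ## B. Classes of cyclic subgroups -/

/-- `g` generates a conjugate of the group generated by `g₀`. -/
def ConjZ {G : Type} [_root_.Group G] (g₀ g : G) : Prop :=
  ∃ x : G, Subgroup.zpowers (x * g * x⁻¹) = Subgroup.zpowers g₀

/-- **Ind**: the indicator function of a class is a linear combination of permutation characters.

Proof.  `ConjZ` is an equivalence relation (`zpowers (x g x⁻¹)` is the conjugate of `zpowers g` by `x`: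
`Subgroup.map (MulAut.conj x)`, `MonoidHom.map_zpowers`).  Every `f(g) = fx (G ⧸ H) g` is constant on the classes: for
`zpowers (x g x⁻¹) = zpowers g₀` the map `y ↦ x y` is a bijection from the points fixed by `g` to the points
fixed by `x g x⁻¹`, and a point is fixed by an element `a` iff it is fixed by all elements of `zpowers a`.
Induction on `orderOf g₀` (strong).  Let `H = zpowers g₀`, `f = fx (G ⧸ H)`.  `f(g₀) ≥ 1` (the coset `H` is fixed).
If `f(g) ≠ 0`, then `g x H = x H` for some `x`, so `g₁ = x⁻¹ g x ∈ H`, `g` is in the class of `g₁`, and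
`orderOf g₁` divides `orderOf g₀`; if they are equal then `zpowers g₁ = H` (a subgroup of `H` with the same
finite number of elements) and `g` is in the class of `g₀`; otherwise `orderOf g = orderOf g₁ < orderOf g₀`.
Let `𝒬` be the (finite) quotient of `G` by `ConjZ`.  Then
`f = ∑_{q ∈ 𝒬} f(q.out) 1_q` (`1_q` the indicator function of the class `q`), so
`f(g₀) 1_{q₀} = f - ∑_{q ≠ q₀} f(q.out) 1_q`, where for `q ≠ q₀` either `f(q.out) = 0` or
`orderOf q.out < orderOf g₀` and `1_q` is in the span by induction.  Divide by `f(g₀)`. -/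
def S_Ind : Prop :=
  ∀ (G : Type) [_root_.Group G] [Fintype G] (g₀ : G) (h : G → ℝ),
    (∀ g, ConjZ g₀ g → h g = 1) → (∀ g, ¬ ConjZ g₀ g → h g = 0) →
    h ∈ Submodule.span ℝ (Set.range fun (H : Subgroup G) (g : G) => fx (G ⧸ H) g)

/-- `f` has the mean value `L`, with a bounded error. -/
def BMean {X : Type} (q : X → ℕ) (f : X → ℝ) (L : ℝ) : Prop :=
  ∃ C : ℝ, ∀ x : ℝ, 0 < x → x ≤ 1 → |Qs q x f - L * Real.log (1 / x)| ≤ C

/-- Norm functions. -/
def NormsB {X : Type} (q : X → ℕ) : Prop :=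
  (∀ v, 2 ≤ q v) ∧ (∀ s : ℝ, 1 < s → Summable fun v => (q v : ℝ) ^ (-s)) ∧
    BMean q (fun _ => 1) 1

/-- **ClassB** (from `S_Ind`): the mean value of the indicator function of a class.

Proof.  Let `𝒮` be the set of the `h : G → ℝ` with `BMean q (h ∘ σ) ((∑_g h g)/|G|)`.  It is a linear subspace
(`h ∘ σ` is bounded, `G` is finite, and for bounded `f` the series `Qs q x f` converges absolutely for `x > 0`, so `Qs` is
additive and homogeneous).  `fx (G ⧸ H)` is in `𝒮` by hypothesis, because `∑_g fx (G ⧸ H) g = |G|` (Burnside's lemma for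
the transitive `G`-set `G ⧸ H`: `MulAction.sum_card_fixedBy_eq_card_orbits_mul_card_group`; or count the pairs
`(g, x)` with `x⁻¹ g x ∈ H`).  So `𝒮` contains the span (`Submodule.span_induction` or `Submodule.span_le`) and,
by `S_Ind`, the indicator function of the class of `g₀`; its mean is (number of elements of the class)/|G| > 0
(the class contains `g₀`). -/
def S_ClassB : Prop :=
  ∀ (X G : Type) [_root_.Group G] [Fintype G] (q : X → ℕ) (σ : X → G), NormsB q →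
    (∀ H : Subgroup G, BMean q (fun v => fx (G ⧸ H) (σ v)) 1) →
    ∀ (g₀ : G) (f : X → ℝ), (∀ v, ConjZ g₀ (σ v) → f v = 1) → (∀ v, ¬ ConjZ g₀ (σ v) → f v = 0) →
      ∃ δ : ℝ, 0 < δ ∧ BMean q f δ

/-! ## C. From mean values to many elements on some scale -/

/-- **Mid**: a positive mean forces a large sum over a range `(Y, Y^M]`.

Proof.  Let `A = {v | f v = 1}`, `D(x) = Qs q x 1`, `D_A(x) = Qs q x f`, all series converge absolutely for `x > 0`;
`|D(x) - log(1/x)| ≤ C`, `|D_A(x) - δ log(1/x)| ≤ C` for `0 < x ≤ 1`.  Let `Y ≥ e²`, `x = 1/log Y ≤ 1/2`, `M ≥ 1`, and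
`w(v) = q^(-x/M) - q^(-x) ≥ 0` (`q = q v`).  Then
`∑_{v ∈ A} w(v)/q = D_A(x/M) - D_A(x) ≥ δ log M - 2C`.
(1) `q ≤ Y`: `u = x log q ∈ [0,1]`, `w ≤ 1 - e^(-u) ≤ u`, and
`e^(-u/2) - e^(-2u) = e^(-2u) (e^(3u/2) - 1) ≥ e^(-2) (3/2) u ≥ u/5`.  So these `v` contribute at most
`5 ∑_v (q^(-x/2) - q^(-2x))/q = 5 (D(x/2) - D(2x)) ≤ 5 (log 4 + 2C)` (all terms of this series are `≥ 0`).
(2) `q > Y^M`: `u = (x/M) log q > 1`, `w ≤ e^(-u)`, and
`e^(-u/2) - e^(-2u) = e^(-u/2) (1 - e^(-3u/2)) ≥ e^(-u)/2`.  These `v` contribute at most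
`2 (D(x/(2M)) - D(2x/M)) ≤ 2 (log 4 + 2C)`.
(3) `Y < q ≤ Y^M`: `w ≤ 1`.
So the sum of `1/q` over the `v ∈ A` with `Y < q ≤ Y^M` is at least `δ log M - 2C - 7 (log 4 + 2C) ≥ 1` if
`log M = (1 + 16 C + 7 log 4)/δ` (`C ≥ 0`).  The set of these `v` is finite (`NormsB`: only finitely many `v` have
`q v ≤ Z`, because `∑ q^(-2)` converges and each of these terms is at least `Z^(-2)`). -/
def S_Mid : Prop :=
  ∀ (X : Type) (q : X → ℕ) (f : X → ℝ) (δ : ℝ), NormsB q → (∀ v, f v = 0 ∨ f v = 1) → 0 < δ →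
    BMean q f δ → ∃ M Y₀ : ℝ, 1 ≤ M ∧ ∀ Y : ℝ, Y₀ ≤ Y →
      ∃ T : Finset X, (∀ v ∈ T, f v = 1 ∧ Y < q v ∧ (q v : ℝ) ≤ Y ^ M) ∧
        1 ≤ ∑ v ∈ T, 1 / (q v : ℝ)

/-- **Dyad**: many elements on some scale.

Proof.  Let `ε < 1` (otherwise replace `ε` by `1/2`: `P^(1-ε) ≤ P^(1/2)`, as `P ≥ 1`), `B = M + 1`, and let `Y` be
large.  Suppose that for all natural numbers `P` with `Y ≤ P ≤ Y^B` there is no `T` as required.  Let `T` be the set of
the hypothesis.  For `v ∈ T` let `i = Nat.log 2 (q v)`, `2^i ≤ q v < 2^(i+1)`.  Then `P = 2^(i+1)` satisfies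
`Y < P ≤ 2 Y^M ≤ Y^B` (`Y ≥ 2`), and the set of the `v ∈ T` in this block is a set of elements with `f v = 1`,
`q v ≤ P`, so it has fewer than `P^(1-ε) = 2^((i+1)(1-ε))` elements; each of them contributes at most `2^(-i)`
to `∑_{v ∈ T} 1/q v`.  So the block contributes at most `2 · 2^(-i ε)`.  All `i` satisfy `2^(i+1) > Y`.
The sum over the `i` is at most `2 ∑_{i ≥ i₀} 2^(-iε) = 2 · 2^(-i₀ ε)/(1 - 2^(-ε))`, `i₀` the least natural number with
`2^(i₀+1) > Y`; so it is at most `4 Y^(-ε)/(1 - 2^(-ε)) < 1` for large `Y`: contradiction. -/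
def S_Dyad : Prop :=
  ∀ (X : Type) (q : X → ℕ) (f : X → ℝ) (M Y₀ : ℝ), 1 ≤ M →
    (∀ Y : ℝ, Y₀ ≤ Y → ∃ T : Finset X, (∀ v ∈ T, f v = 1 ∧ Y < q v ∧ (q v : ℝ) ≤ Y ^ M) ∧
        1 ≤ ∑ v ∈ T, 1 / (q v : ℝ)) →
    ∀ ε : ℝ, 0 < ε → ∃ B Y₁ : ℝ, 1 ≤ B ∧ ∀ Y : ℝ, Y₁ ≤ Y →
      ∃ (P : ℕ) (T : Finset X), Y ≤ P ∧ (P : ℝ) ≤ Y ^ B ∧ (P : ℝ) ^ (1 - ε) ≤ T.card ∧
        ∀ v ∈ T, f v = 1 ∧ q v ≤ P

/-! ## D. Decomposition of primes -/

/-- **DegF** (from `S_Homs`, `S_Bij`, `S_Cnt`): primes of degree one, for every choice of Frobenius elements.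

Proof.  As `Ext/Deg.lean` (`S_Deg`).  `D` from `S_Bij`; `D ∉ v` implies `D ∉ P`, because `comap P = v`. -/
def S_DegF : Prop :=
  ∀ (K F N : Type) [Field K] [NumberField K] [Field F] [NumberField F] [Field N] [NumberField N]
    [Algebra K F] [Algebra K N] [IsGalois K N], Nonempty (F →ₐ[K] N) →
    ∃ D : 𝓞 K, D ≠ 0 ∧ ∀ (v : HeightOneSpectrum (𝓞 K)) (P : Ideal (𝓞 N)) (g : N ≃ₐ[K] N),
      IsFrob K N v P g → D ∉ v.asIdeal → deg1 K F v = fix K F N g

/-- **TransB** (from `S_DegF`, `S_FixF`, `S_Reg`, `S_Fib`, `S_ZetaSum`, `S_ZetaCosK`): the means of the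
permutation characters, with bounded error.

Proof.  First part: `nm v ≥ 2`, `S_ZetaSum` and `S_ZetaCosK` (`u = 0`: `primeSum K x 0 = Qs nm x 1`, see
`Ext/NormK.lean`).  Second part: given `H`, let `F` be the field of `S_FixF`, `D` from `S_DegF`.  For `v` outside the
finite set `S = {v | D ∈ v}` (see `Deg_finite_mem` in `Ext/Deg.lean`):
`fx (G ⧸ H) (σ v) = fix K F N (σ v) = deg1 K F v`.  By `S_Reg` (`S = ∅`, `A = 1`, `f = g = 1`):
`|primeSum F x 0 - Qs nm x (deg1 K F)| ≤ C`, and `S_ZetaCosK` for `F`.  Both `deg1 K F v` (`≤ [F : K]`, `S_Fib`, see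
`TransK_deg1_le` in `Ext/TransK.lean`) and `fx` (`≤ card (G ⧸ H)`) are bounded and differ only on `S`, so
`|Qs nm x deg1 - Qs nm x fx|` is at most the sum of `|deg1 v - fx (σ v)|` over `S` (`(nm v)^(-(1+x)) ≤ 1`; the
series converge absolutely). -/
def S_TransB : Prop :=
  ∀ (K N : Type) [Field K] [NumberField K] [Field N] [NumberField N] [Algebra K N] [IsGalois K N]
    (σ : HeightOneSpectrum (𝓞 K) → (N ≃ₐ[K] N)), (∀ v, ∃ P : Ideal (𝓞 N), IsFrob K N v P (σ v)) →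
    NormsB (fun v : HeightOneSpectrum (𝓞 K) => nm v) ∧
    ∀ H : Subgroup (N ≃ₐ[K] N),
      BMean (fun v : HeightOneSpectrum (𝓞 K) => nm v) (fun v => fx ((N ≃ₐ[K] N) ⧸ H) (σ v)) 1

/-- The prime of `F` below `P` with respect to the embedding `φ`, as an ideal. -/
noncomputable def below {K F N : Type} [Field K] [NumberField K] [Field F] [NumberField F]
    [Field N] [NumberField N] [Algebra K F] [Algebra K N] (P : Ideal (𝓞 N)) (φ : F →ₐ[K] N) :
    Ideal (𝓞 F) :=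
  RingHom.ker (redHom K F N P φ)

/-- **Per**: the period of an embedding under Frobenius is the residue degree.

Proof.  `κ = 𝓞 N/P` is a domain (`IsFrob`: `P` is prime), `q = nm v`, `κ' = 𝓞 F/w`, a field with `nm w = q^f` elements;
`redHom φ` induces an injective ring homomorphism `κ' → κ` (its kernel is `w`).  By `IsFrob`, for `a ∈ 𝓞 F`:
`redHom (g∘φ) a = (redHom φ a)^q`, so `redHom (g^j∘φ) a = (redHom φ a)^(q^j)` (induction), and by injectivity of
`redHom` on embeddings: `g^j∘φ = φ` iff `z^(q^j) = z` for all `z ∈ κ'`.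
`f ∣ j`, `j = f m`: `z^(q^f) = z` (`FiniteField.pow_card`), so `z^(q^j) = z`.
Conversely let `z^(q^j) = z` for all `z ∈ κ'`.  Write `j = f m + r`, `0 ≤ r < f`.  Then `z^(q^j) = z^(q^r)` (as
`z^(q^(fm)) = z`), so all `q^f` elements of `κ'` satisfy `z^(q^r) = z`.  If `r ≥ 1` the polynomial `X^(q^r) - X` is
not zero and has at most `q^r < q^f` roots: contradiction.  So `r = 0`. -/
def S_Per : Prop :=
  ∀ (K F N : Type) [Field K] [NumberField K] [Field F] [NumberField F] [Field N] [NumberField N]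
    [Algebra K F] [Algebra K N] (v : HeightOneSpectrum (𝓞 K)) (P : Ideal (𝓞 N)) (g : N ≃ₐ[K] N),
    IsFrob K N v P g → Function.Injective (redHom K F N P) →
    ∀ (φ : F →ₐ[K] N) (w : HeightOneSpectrum (𝓞 F)) (f : ℕ), 1 ≤ f → nm w = nm v ^ f →
      below P φ = w.asIdeal →
      ∀ j : ℕ, (((g ^ j : N ≃ₐ[K] N) : N →ₐ[K] N).comp φ = φ ↔ f ∣ j)

/-- **Num**: there are exactly `f` embeddings over a prime of residue degree `f`.

Proof.  `κ = 𝓞 N/P`, a domain, `k = 𝓞 K/v`, a finite field with `q = nm v` elements, embedded in `κ`.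
(a) `below P φ` is a prime ideal of `𝓞 F` over `v`: its comap to `𝓞 K` is the comap of `P`, that is `v ≠ 0`, so it is
a nonzero prime ideal.  For a prime `w` over `v` let `f(w)` be the residue degree: `nm w = q^(f(w))`,
`f(w) ≥ 1` (`𝓞 F/w` is a vector space over `k` of dimension `f(w)`).
(b) At most `f(w)` embeddings have `below P φ = w`: `redHom` is injective, and `redHom φ` factors over a `k`-algebra
homomorphism `𝓞 F/w → κ`, which determines it; there are at most `dim_k (𝓞 F/w) = f(w)` of these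
(`card_algHom_le_finrank` or `AlgHom.card_le`, with the fraction field of `κ` or an algebraic closure of it; or:
`𝓞 F/w = k[ζ]` for a generator `ζ` of the multiplicative group and a homomorphism is determined by the
image of `ζ`, a root of the minimal polynomial of `ζ`, of degree `f(w)`).
(c) The number of all embeddings is `[F : K]` (`card_emb` in `Ext/Sym.lean`), and by
`Ideal.sum_ramification_inertia`: `[F : K] = ∑_{w over v} e(w) f(w) ≥ ∑_w f(w)`.
So `[F : K] = ∑_w #{φ | below P φ = w} ≤ ∑_w f(w) ≤ [F : K]`, and there is equality for every `w`. -/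
def S_Num : Prop :=
  ∀ (K F N : Type) [Field K] [NumberField K] [Field F] [NumberField F] [Field N] [NumberField N]
    [Algebra K F] [Algebra K N] [IsGalois K N] (v : HeightOneSpectrum (𝓞 K)) (P : Ideal (𝓞 N)),
    P.IsPrime → P.comap (algebraMap (𝓞 K) (𝓞 N)) = v.asIdeal → Nonempty (F →ₐ[K] N) →
    Function.Injective (redHom K F N P) →
    (∀ φ : F →ₐ[K] N, ∃ w : HeightOneSpectrum (𝓞 F), below P φ = w.asIdeal ∧
      w.asIdeal.comap (algebraMap (𝓞 K) (𝓞 F)) = v.asIdeal) ∧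
    ∀ w : HeightOneSpectrum (𝓞 F), w.asIdeal.comap (algebraMap (𝓞 K) (𝓞 F)) = v.asIdeal →
      ∃ f : ℕ, 1 ≤ f ∧ nm w = nm v ^ f ∧ Nat.card {φ : F →ₐ[K] N // below P φ = w.asIdeal} = f

/-- **RatP**: the primes of `𝓞 ℚ`.

Proof.  `𝓞 ℚ ≃+* ℤ` (`Rat.ringOfIntegersEquiv`), a principal ideal domain.  Let `p` be a prime number in `v` (`v` contains
`nm v`, a positive integer, so one of its prime factors).  The ideal `(p)` is maximal (it corresponds to
`(p) ⊂ ℤ`), so `v = (p)`, and `nm v = |N(p)| = p` (`Ideal.absNorm_span_singleton`, `Algebra.norm` of a rational integer in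
degree 1; or `absNorm` is the cardinality of `ℤ/p`).  If `nm v = nm v' = p` then `v = (p) = v'`.
Third part: `nm w = p^i ∈ w` (`Ideal.absNorm_mem`), `i ≥ 1` or `1 ∈ w`, so `p ∈ w` and `v = (p) ⊆ comap w ≠ ⊤`, and `v` is maximal. -/
def S_RatP : Prop :=
  (∀ v : HeightOneSpectrum (𝓞 ℚ), (nm v).Prime) ∧
  (∀ v v' : HeightOneSpectrum (𝓞 ℚ), nm v = nm v' → v = v') ∧
  ∀ (K : Type) [Field K] [NumberField K] (w : HeightOneSpectrum (𝓞 K))
    (v : HeightOneSpectrum (𝓞 ℚ)) (i : ℕ), nm w = nm v ^ i →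
    w.asIdeal.comap (algebraMap (𝓞 ℚ) (𝓞 K)) = v.asIdeal

/-! ## E. The coefficients -/

/-- **PsumE**: power sums as sums of cosines.

Proof.  For `j ∈ s`: `|α j|² = p^(f j) = α j β j`, so `β j = conj (α j)` (`α j ≠ 0`).  Let `θ j = arg (α j)`,
`α j = √(p^(f j)) e^(i θ j)`, `ψ y = θ (w y)/f (w y)`; `ψ (π y) = ψ y` because `w (π y) = w y`.
For `f j ∣ k`, `k = f j l`: `α j^l + β j^l = 2 Re (α j^l) = 2 √(p^k) cos(l θ j)` (`(√(p^f))^l = √(p^(f l))`), and
`l θ j = k ψ y` for all `y` with `w y = j`.  So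
`psum s f α β k = ∑_{j ∈ s, f j ∣ k} f j · 2 √(p^k) cos(k ψ_j)`, `ψ_j = θ j/f j`, and
`csum π ψ k = ∑_{j ∈ s} ∑_{y : w y = j} [f j ∣ k] cos(k ψ_j) = ∑_{j ∈ s} f j [f j ∣ k] cos(k ψ_j)`
(`Finset.sum_fiberwise_of_maps_to`). -/
def S_PsumE : Prop :=
  ∀ (J Y : Type) [Fintype Y] (s : Finset J) (f : J → ℕ) (α β : J → ℂ) (p : ℝ) (π : Equiv.Perm Y)
    (w : Y → J), 0 < p →
    (∀ j ∈ s, 1 ≤ f j ∧ ‖α j‖ = √(p ^ f j) ∧ α j * β j = (p : ℂ) ^ f j) →
    (∀ y, w y ∈ s) → (∀ y, w (π y) = w y) → (∀ j ∈ s, Nat.card {y : Y // w y = j} = f j) →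
    (∀ (y : Y) (i : ℕ), (π ^ i) y = y ↔ f (w y) ∣ i) →
    ∃ ψ : Y → ℝ, (∀ y, ψ (π y) = ψ y) ∧
      ∀ k : ℕ, Zs.psum s f α β k = ((2 * √(p ^ k) * csum π ψ k : ℝ) : ℂ)

/-- **RootsP**: the product of the roots.

Proof.  `q = nm v ≥ 2`, `a = tr (M v) v`, `g = 1` if the discriminant is not in `v`, else `g = 0`; `locDen (M v) v s =
1 - a q^(-s) + g q^(1-2s)`.  For `s = 0`: `1 - a + g q = (1 - α)(1 - β)`; for `s = iπ/log q`: `q^(-s) = -1`,
`q^(1-2s) = q`, so `1 + a + g q = (1 + α)(1 + β)`.  The sum gives `2 + 2 g q = 2 + 2 α β`, so `α β = g q`; the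
absolute value of the left side is `q ≠ 0`, so `g = 1`. -/
def S_RootsP : Prop :=
  ∀ (K : Type) [Field K] [NumberField K] (M : WeierstrassCurve (𝓞 K))
    (v : HeightOneSpectrum (𝓞 K)) (α β : ℂ),
    (∀ s : ℂ, locDen M v s = (1 - α * (nm v : ℂ) ^ (-s)) * (1 - β * (nm v : ℂ) ^ (-s))) →
    ‖α‖ = √(nm v) → ‖β‖ = √(nm v) → α * β = (nm v : ℂ)

/-- The hypothesis on the roots outside a finite set. -/
def RootsOK (K : Type) [Field K] [NumberField K] (α β : HeightOneSpectrum (𝓞 K) → ℂ) : Prop :=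
  {v : HeightOneSpectrum (𝓞 K) | ¬ (‖α v‖ = √(nm v) ∧ α v * β v = (nm v : ℂ))}.Finite

/-- **Loc** (from `S_Per`, `S_Num`, `S_Bij`, `S_RatP`, `S_PsumE`, `S_AdmC`, `S_AdmConj`, `Zs.S_Over`,
`Zs.S_Coef`): a large coefficient at a power of `p`, if Frobenius is in the class of `g₀`.

Proof.  `Y = (K →ₐ[ℚ] N)` (finite).  `c₀` from `S_AdmC` for `perm g₀`; but it is needed for `perm g` with `g` in the
class of `g₀`: for each of the finitely many `g` with `ConjZ g₀ g` the number `k` is admissible for `perm g`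
(`S_AdmConj`: `perm` is a homomorphism `(N ≃ₐ[ℚ] N) → Equiv.Perm Y`, so `zpowers (x g x⁻¹) = zpowers g₀` gives
the same for the images, `MonoidHom.map_zpowers`); let `c₀ > 0` be the least of the constants of `S_AdmC` for
all these `g` (`N ≃ₐ[ℚ] N` is finite and the set is not empty; or choose the constants and take `Finset.inf'`),
and `c = 2 c₀/k` (`k ≥ 1`).
`D` from `S_Bij` (for `ℚ`, `K`, `N`).  Exceptional `v`: `D ∈ v` (finitely many, `Deg_finite_mem` in `Ext/Deg.lean`), and the `v` under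
one of the finitely many primes `w₀` of the set in `RootsOK` (`v.asIdeal = comap w₀`, so at most one `v` for each `w₀`).
Let `v` be another prime of `𝓞 ℚ`, `p = nm v` (prime, `S_RatP`), `P`, `g` as in the statement, `ConjZ g₀ g`.
`D ∉ P` since `comap P = v`; so `redHom ℚ K N P` is bijective.  `s`, `f` from `Zs.S_Over` for `p`: the elements of `s` are
exactly the primes of `K` over `v`: if `w₀ ∈ s` then `nm w₀ = p^(f w₀)`, so `comap w₀ = v` (`S_RatP`); if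
`comap w₀ = v` then by `S_Num` `nm w₀ = p^i`, so `w₀ ∈ s`; and by `S_Num` (and injectivity of `i ↦ p^i`) the number of
`φ` with `below P φ = w₀` is `f w₀`.  Let `w φ` be the prime with `(w φ).asIdeal = below P φ` (`S_Num`).
`w (g∘φ) = w φ`: `redHom (g∘φ) a = (redHom φ a)^p` (`IsFrob`) vanishes iff `redHom φ a` does (`κ` is a domain).
`S_Per`: `g^i∘φ = φ` iff `f (w φ) ∣ i`; `((perm g)^i) φ = (g^i)∘φ`.  All `w₀ ∈ s` satisfy
`‖α w₀‖ = √(p^(f w₀))`, `α w₀ β w₀ = p^(f w₀)`.  `S_PsumE` gives `ψ`, and `S_AdmC` a `j`, `1 ≤ j ≤ k`, with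
`|csum (perm g) ψ j| ≥ c₀`.  By `Zs.S_Coef`: `‖coef (p^j)‖ = ‖psum s f α β j‖/j = 2 √(p^j) |csum|/j ≥ c √(p^j)`. -/
def S_Loc : Prop :=
  ∀ (K N : Type) [Field K] [NumberField K] [Field N] [NumberField N] [IsGalois ℚ N]
    (g₀ : N ≃ₐ[ℚ] N) (k : ℕ), Nonempty (K →ₐ[ℚ] N) →
    Adm (perm (K := K) g₀) k → ∀ α β : HeightOneSpectrum (𝓞 K) → ℂ, RootsOK K α β →
    ∃ (c : ℝ) (S : Set (HeightOneSpectrum (𝓞 ℚ))), 0 < c ∧ S.Finite ∧ ∀ v ∉ S,
      ∀ (P : Ideal (𝓞 N)) (g : N ≃ₐ[ℚ] N), IsFrob ℚ N v P g → ConjZ g₀ g →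
        ∃ j : ℕ, 1 ≤ j ∧ j ≤ k ∧
          c * √((nm v : ℝ) ^ j) ≤ ‖Zs.coef (Zs.lamE K) (Zs.tauE α β) (nm v ^ j)‖

/-- **Many** (from `S_Loc`, `S_Frob`, `S_TransB`, `S_ClassB`, `S_Mid`, `S_Dyad`, `S_RatP`): many primes with a large
coefficient.

Proof.  Choose `P v`, `σ v` from `S_Frob` for `ℚ`, `N`.  `S_TransB`, `S_ClassB` for the function `f v = 1` if
`ConjZ g₀ (σ v)` and `v ∉ S` (`S` from `S_Loc`), else `0`: the function without the condition `v ∉ S` has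
`BMean` `δ > 0` by `S_ClassB`, and `f` differs from it only on the finite set `S`, by at most `1`, so `BMean q f δ` too
(`(nm v)^(-(1+x)) ≤ 1`; the series converge absolutely).  `S_Mid`, `S_Dyad` with this `f`.  The set `T` of primes `v` is
mapped by `nm` (injective, prime values: `S_RatP`) to a set of prime numbers with the same number of elements. -/
def S_Many : Prop :=
  ∀ (K N : Type) [Field K] [NumberField K] [Field N] [NumberField N] [IsGalois ℚ N]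
    (g₀ : N ≃ₐ[ℚ] N) (k : ℕ), Nonempty (K →ₐ[ℚ] N) →
    Adm (perm (K := K) g₀) k → ∀ α β : HeightOneSpectrum (𝓞 K) → ℂ, RootsOK K α β →
    ∃ c : ℝ, 0 < c ∧ ∀ ε : ℝ, 0 < ε → ∃ B Y₁ : ℝ, 1 ≤ B ∧ ∀ Y : ℝ, Y₁ ≤ Y →
      ∃ (P : ℕ) (T : Finset ℕ), Y ≤ P ∧ (P : ℝ) ≤ Y ^ B ∧ (P : ℝ) ^ (1 - ε) ≤ T.card ∧
        ∀ p ∈ T, p.Prime ∧ p ≤ P ∧ ∃ j : ℕ, 1 ≤ j ∧ j ≤ k ∧
          c * √((p : ℝ) ^ j) ≤ ‖Zs.coef (Zs.lamE K) (Zs.tauE α β) (p ^ j)‖

/-- The lower bound for the sum of squares of the coefficients, at some scale between `Y` and `Y^B`. -/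
def Low (a : ℕ → ℂ) (k : ℕ) (x : ℝ) : Prop :=
  ∃ η B Y₀ : ℝ, 0 < η ∧ 1 ≤ B ∧ ∀ Y : ℝ, Y₀ ≤ Y → ∃ (P : ℕ) (S : Finset ℕ),
    Y ≤ P ∧ (P : ℝ) ≤ Y ^ B ∧ (∀ m ∈ S, 1 ≤ m ∧ m ≤ P ^ k) ∧
    (P : ℝ) ^ η ≤ ∑ m ∈ S, ‖a m‖ ^ 2 * (m : ℝ) ^ (-(2 * x))

/-- **Lower**: from many large coefficients to a large sum.

Proof.  As the second half of `Zs/Lower.lean`.  `δ = 1 - k(2x - 1) > 0`, `η = ε = δ/3`; `B`, `Y₁` from the hypothesis for
`ε`.  For `Y ≥ Y₁` (large) take `P`, `T`; for `p ∈ T` choose `j(p)`; `S` = the set of the `p^(j(p))`, `p ∈ T`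
(`p ↦ p^(j(p))` is injective on primes).  `m = p^j ≤ P^j ≤ P^k` (`P ≥ 1`).  Each term is
`‖a m‖² m^(-2x) ≥ c² p^j (p^j)^(-2x) = c² (p^j)^(-(2x-1)) ≥ c² P^(-k(2x-1))` (`2x > 1`).  So the sum is at least
`c² P^(1-ε) P^(-k(2x-1)) = c² P^(δ - ε) = c² P^(2η) ≥ P^η`, if `P^η ≥ Y^η ≥ 1/c²`, true for large `Y`. -/
def S_Lower : Prop :=
  ∀ (a : ℕ → ℂ) (k : ℕ) (c x : ℝ), 0 < c → 1 / 2 < x → x < 1 / 2 + 1 / (2 * (k : ℝ)) →
    (∀ ε : ℝ, 0 < ε → ∃ B Y₁ : ℝ, 1 ≤ B ∧ ∀ Y : ℝ, Y₁ ≤ Y →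
      ∃ (P : ℕ) (T : Finset ℕ), Y ≤ P ∧ (P : ℝ) ≤ Y ^ B ∧ (P : ℝ) ^ (1 - ε) ≤ T.card ∧
        ∀ p ∈ T, p.Prime ∧ p ≤ P ∧ ∃ j : ℕ, 1 ≤ j ∧ j ≤ k ∧
          c * √((p : ℝ) ^ j) ≤ ‖a (p ^ j)‖) →
    Low a k x

/-! ## F. The theorem -/

/-- The conclusion: zeros in boxes for `σ₁ < b`. -/
def Zeros (K : Type) [Field K] [NumberField K] (M : HeightOneSpectrum (𝓞 K) → WeierstrassCurve (𝓞 K))
    (b : ℝ) : Prop :=
  ∀ σ₁ : ℝ, σ₁ < b → ∃ κ V₀ : ℝ, ∀ V t₀ : ℝ, V₀ ≤ V →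
      ∀ F : ℂ → ℂ, DifferentiableOn ℂ F {s : ℂ | σ₁ < s.re ∧ |s.im - t₀| < V ^ κ} →
        (∀ s : ℂ, σ₁ < s.re → |s.im - t₀| < V ^ κ → ‖F s‖ ≤ Real.exp V) →
        (∀ s : ℂ, 3 / 2 < s.re → |s.im - t₀| < V ^ κ →
          F s = ∏' v : HeightOneSpectrum (𝓞 K), (locDen (M v) v s)⁻¹) →
        ∃ ρ : ℂ, σ₁ < ρ.re ∧ |ρ.im - t₀| < V ^ κ ∧ F ρ = 0

/-- **Box** (from `Zs.S_Core`, `Zs.S_LogBall`).

Proof.  As `Zs/Box.lean`, with `2n` replaced by `k` and `P` chosen by `Low`.  `a = max σ₁ (1/2) < b`, `x' = (2a + b)/3`,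
`x = (a + 2b)/3`, `1/2 < x < b`; `η`, `B`, `Y₀` from `Low` for `x`.  For `V` large let `Y = V^(3/η) ≥ Y₀`, `P` from `Low`:
`V^(3/η) ≤ P ≤ V^(3B/η)`, `N = P^k`, `U = N³ ≤ V^(9 k B/η)`, `X = 4 + (U+3)²/(x'-a) ≤ V^κ`, `κ = 18 k B/η + 1`
(for large `V`: `X ≤ 4 + 16 U²/(x'-a)`, as `U ≥ 1`).  `w = X + i t₀`, `R = X - a`; the rest is the same as in `Zs/Box.lean`:
the balls around the line `Re s = 3` are in `ball w R`, which is in the box, `G` from `Zs.S_LogBall`,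
`|G| ≤ M' = B' + 6(V+B'+1)/(x-x')` on the rectangle (`B' = ∑ |τ|/λ³`), `Zs.S_Core` with the finite set `S` of `Low`:
`V³ ≤ P^η ≤ (K₄ (M'+B'))² ≤ C V²`: contradiction for large `V`. -/
def S_Box : Prop :=
  ∀ (K : Type) [Field K] [NumberField K] (M : HeightOneSpectrum (𝓞 K) → WeierstrassCurve (𝓞 K))
    (α β : HeightOneSpectrum (𝓞 K) → ℂ) (k : ℕ) (b : ℝ),
    Summable (fun i => ‖Zs.tauE α β i‖ / (Zs.lamE K i : ℝ) ^ 3) →
    (∀ s : ℂ, s.re = 3 → ∏' v : HeightOneSpectrum (𝓞 K), (locDen (M v) v s)⁻¹ =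
      Complex.exp (Zs.ser (Zs.lamE K) (Zs.tauE α β) s)) →
    1 / 2 < b → b ≤ 1 →
    (∀ x : ℝ, 1 / 2 < x → x < b → Low (Zs.coef (Zs.lamE K) (Zs.tauE α β)) k x) →
    Zeros K M b

/-- **Fin** (from `S_Many`, `S_Lower`, `S_Box`, `S_RootsP`, `Zs.S_Roots`, `Zs.S_Series`): the theorem.

Proof.  `α`, `β`, `X` from `Zs.S_Roots`; `RootsOK` by `S_RootsP` (the exceptional set is contained in `X`).  `k ≥ 1` (`Adm` with
`ψ = 0`).  `Zs.S_Series` gives the summability and the exponential formula.  `b = 1/2 + 1/(2k) ≤ 1`; for `1/2 < x < b`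
`S_Many` and `S_Lower` give `Low`.  `S_Box`. -/
def S_Fin : Prop :=
  ∀ (K : Type) [Field K] [NumberField K] (E : WeierstrassCurve K), E.IsElliptic →
    ∀ M : HeightOneSpectrum (𝓞 K) → WeierstrassCurve (𝓞 K), (∀ v, IsMinAt E v (M v)) →
    ∀ (N : Type) [Field N] [NumberField N] [IsGalois ℚ N] (g : N ≃ₐ[ℚ] N) (k : ℕ),
      Nonempty (K →ₐ[ℚ] N) → Adm (perm (K := K) g) k → Zeros K M (1 / 2 + 1 / (2 * (k : ℝ)))

end MP7ed9c3.Zg
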